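import Pool.Agent.N875.S15.Tors
import Pool.Agent.N875.X15.Short
import Pool.Agent.N373.P24.Ker
import Pool.Agent.N373.P24.Odd
import Pool.Agent.Y700.VC
import Pool.Agent.N218.T15.Tam

/-!
# The torsion subgroup of `E_m(ℚ)`, `E_m : y² = x (x + 9 m) (x - 16 m)`, `m ≠ ± 1`, has order four

A nonzero point of odd order has `9 x = u²`, `9 (x + 9 m) = v²`, `9 (x - 16 m) = w²` with integers `u`,
`v`, `w`, by the formal group at the odd primes and by doubling at two; and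
`2 u v w u' = ± (u⁴ + 11664 m²)` with `u'` the number `u` of the double of the point. Method and some
lemmas: helper373 (level 24), helper875 (level 15).
-/

set_option autoImplicit false
set_option linter.style.haveILetI false

namespace Pool.Agent.N871.S15

open WeierstrassCurve
open Pool.Agent.TH841.SH (IsR)
open Pool.Agent.N875.X15 (dbl_sq dbl_T isR_eqn two_tor sq_cancel card_four finite_tors Em EQm isR nonsing
  T4 T4_card T4_two fg_E EQm_Δ_ne vrS WS WN WNQ)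
open Pool.Agent.N373.P24 (coprime_of zero_of_two torsion_int den_lin)
open Pool.Agent.H901R3.MS (CV Pt)

open scoped Classical

/-! ### Integers -/

lemma nsq {a c : ℤ} (h0 : 0 ≤ a) (h1 : a * a < c) (h2 : c < (a + 1) * (a + 1)) :
    ¬ IsSquare c := by
  rintro ⟨r, rfl⟩
  rcases abs_cases r with ⟨h3, h4⟩ | ⟨h3, h4⟩
  · have h5 : a < r := by nlinarith
    have h6 : r < a + 1 := by nlinarith
    omega
  · have h5 : a < -r := by nlinarith
    have h6 : -r < a + 1 := by nlinarith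
    omega

lemma dvd_of_rel {a b c : ℤ} (h : (a * b) ^ 2 = c ^ 2) : a ∣ c :=
  (Int.pow_dvd_pow_iff two_ne_zero).1 (by rw [← h, mul_pow]; exact dvd_mul_right _ _)

/-- a prime which divides `u` and `m` -/
lemma cop_of {u m w k : ℤ} (hs : Squarefree m) (hw : w ^ 2 = u ^ 2 - k * m)
    (hk : ∀ q : ℕ, q.Prime → (q : ℤ) ∣ u → (q : ℤ) ∣ m → ¬ (q : ℤ) ∣ k) : IsCoprime u m := by
  rw [Int.isCoprime_iff_gcd_eq_one]
  by_contra hne
  obtain ⟨q, hq, hqd⟩ := Nat.exists_prime_and_dvd hne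
  have h1 : (q : ℤ) ∣ u := (Int.natCast_dvd_natCast.2 hqd).trans (Int.gcd_dvd_left u m)
  have h2 : (q : ℤ) ∣ m := (Int.natCast_dvd_natCast.2 hqd).trans (Int.gcd_dvd_right u m)
  have hqp := Nat.prime_iff_prime_int.1 hq
  have h3 : (q : ℤ) ∣ w := by
    refine hqp.dvd_of_dvd_pow (n := 2) ?_
    rw [hw]
    exact dvd_sub (dvd_pow h1 two_ne_zero) (dvd_mul_of_dvd_right h2 _)
  have h4 : (q : ℤ) * q ∣ k * m := by
    have e : k * m = u * u - w * w := by linear_combination hw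
    rw [e]
    exact dvd_sub (mul_dvd_mul h1 h1) (mul_dvd_mul h3 h3)
  obtain ⟨t, rfl⟩ := h2
  have h5 : (q : ℤ) ∣ k * t := by
    have : (q : ℤ) * q ∣ q * (k * t) := by
      rw [show (q : ℤ) * (k * t) = k * (q * t) by ring]
      exact h4
    exact (mul_dvd_mul_iff_left hqp.ne_zero).1 this
  rcases hqp.dvd_or_dvd h5 with h6 | h6
  · exact hk q hq h1 (dvd_mul_right _ _) h6
  · have h7 : (q : ℤ) * q ∣ q * t := mul_dvd_mul dvd_rfl h6
    exact hqp.not_isUnit (hs _ h7)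


lemma enumB (A B C : ℕ) (hA : A ∈ Nat.divisors 144) (hB : B ∈ Nat.divisors 225)
    (hC : C ∈ Nat.divisors 400) (h : 25 * A ^ 2 = 16 * B ^ 2 + 9 * C ^ 2) :
    A = B ∨ (A = 12 ∧ B = 9 ∧ C = 16) := by
  have d1 : Nat.divisors 144 = {1, 2, 3, 4, 6, 8, 9, 12, 16, 18, 24, 36, 48, 72, 144} := by decide
  have d2 : Nat.divisors 225 = {1, 3, 5, 9, 15, 25, 45, 75, 225} := by decide
  have d3 : Nat.divisors 400 = {1, 2, 4, 5, 8, 10, 16, 20, 25, 40, 50, 80, 100, 200, 400} := by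
    decide
  rw [d1] at hA
  rw [d2] at hB
  rw [d3] at hC
  have key : ∀ A ∈ ({1, 2, 3, 4, 6, 8, 9, 12, 16, 18, 24, 36, 48, 72, 144} : Finset ℕ),
      ∀ B ∈ ({1, 3, 5, 9, 15, 25, 45, 75, 225} : Finset ℕ),
      ∀ C ∈ ({1, 2, 4, 5, 8, 10, 16, 20, 25, 40, 50, 80, 100, 200, 400} : Finset ℕ),
      25 * A ^ 2 = 16 * B ^ 2 + 9 * C ^ 2 → A = B ∨ (A = 12 ∧ B = 9 ∧ C = 16) := by
    decide +kernel
  exact key A hA B hB C hC h

lemma enumA (A B : ℕ) (hA : A ∈ Nat.divisors 16) (hB : B ∈ Nat.divisors 25)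
    (h : ((B : ℤ) ^ 2 - (A : ℤ) ^ 2) % 81 = 0) : A = B := by
  have d1 : Nat.divisors 16 = {1, 2, 4, 8, 16} := by decide
  have d2 : Nat.divisors 25 = {1, 5, 25} := by decide
  rw [d1] at hA
  rw [d2] at hB
  simp only [Finset.mem_insert, Finset.mem_singleton] at hA hB
  rcases hA with rfl | rfl | rfl | rfl | rfl <;> rcases hB with rfl | rfl | rfl <;>
    first
    | rfl
    | (exfalso; norm_num at h)

/-- integral points -/
lemma arithB {m u v w u' : ℤ} (hs : Squarefree m)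
    (hv : v ^ 2 = u ^ 2 + 9 * m) (hw : w ^ 2 = u ^ 2 - 16 * m)
    (hu : (2 * u * v * w * u') ^ 2 = (u ^ 4 + 144 * m ^ 2) ^ 2) : False := by
  have hm0 := hs.ne_zero
  have hodd : ∀ q : ℕ, q.Prime → (q : ℤ) ∣ 16 → q = 2 := by
    intro q hq h
    have h1 : q ∣ 2 ^ 4 := by exact_mod_cast h
    exact (Nat.prime_dvd_prime_iff_eq hq Nat.prime_two).1 (hq.dvd_of_dvd_pow h1)
  have hthree : ∀ q : ℕ, q.Prime → (q : ℤ) ∣ 9 → q = 3 := by
    intro q hq h
    have h1 : q ∣ 3 ^ 2 := by exact_mod_cast h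
    exact (Nat.prime_dvd_prime_iff_eq hq Nat.prime_three).1 (hq.dvd_of_dvd_pow h1)
  have hco : IsCoprime u m := by
    -- a common prime divides `9 m` twice and `16 m` twice
    rw [Int.isCoprime_iff_gcd_eq_one]
    by_contra hne
    obtain ⟨q, hq, hqd⟩ := Nat.exists_prime_and_dvd hne
    have h1 : (q : ℤ) ∣ u := (Int.natCast_dvd_natCast.2 hqd).trans (Int.gcd_dvd_left u m)
    have h2 : (q : ℤ) ∣ m := (Int.natCast_dvd_natCast.2 hqd).trans (Int.gcd_dvd_right u m)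
    have hqp := Nat.prime_iff_prime_int.1 hq
    have h3 : (q : ℤ) ∣ w := by
      refine hqp.dvd_of_dvd_pow (n := 2) ?_
      rw [hw]
      exact dvd_sub (dvd_pow h1 two_ne_zero) (dvd_mul_of_dvd_right h2 _)
    have h4 : (q : ℤ) ∣ v := by
      refine hqp.dvd_of_dvd_pow (n := 2) ?_
      rw [hv]
      exact dvd_add (dvd_pow h1 two_ne_zero) (dvd_mul_of_dvd_right h2 _)
    have e1 : (q : ℤ) * q ∣ 16 * m := by
      have e : 16 * m = u * u - w * w := by linear_combination hw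
      rw [e]
      exact dvd_sub (mul_dvd_mul h1 h1) (mul_dvd_mul h3 h3)
    have e2 : (q : ℤ) * q ∣ 9 * m := by
      have e : 9 * m = v * v - u * u := by linear_combination -hv
      rw [e]
      exact dvd_sub (mul_dvd_mul h4 h4) (mul_dvd_mul h1 h1)
    have e3 : (q : ℤ) * q ∣ m := by
      have e : m = 4 * (16 * m) - 7 * (9 * m) := by ring
      rw [e]
      exact dvd_sub (dvd_mul_of_dvd_right e1 _) (dvd_mul_of_dvd_right e2 _)
    exact hqp.not_isUnit (hs _ e3)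
  have key : ∀ z : ℤ, (∃ c, z ^ 2 = u ^ 2 + c * m) → IsCoprime z m := by
    rintro z ⟨c, hc⟩
    have h1 : IsCoprime (u ^ 2) m := hco.pow_left
    have h2 : IsCoprime (z ^ 2) m := by
      rw [hc]
      exact h1.add_mul_right_left c
    exact (IsCoprime.pow_left_iff (by norm_num)).1 h2
  have hcv := key v ⟨9, hv⟩
  have hcw := key w ⟨-16, by rw [hw]; ring⟩
  have h2 : u ∣ u ^ 4 + 144 * m ^ 2 := dvd_of_rel (b := 2 * v * w * u') (by rw [← hu]; ring)
  have h2v : v ∣ u ^ 4 + 144 * m ^ 2 := dvd_of_rel (b := 2 * u * w * u') (by rw [← hu]; ring)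
  have h2w : w ∣ u ^ 4 + 144 * m ^ 2 := dvd_of_rel (b := 2 * u * v * u') (by rw [← hu]; ring)
  have h3 : u ∣ 144 := by
    have h4 : u ∣ 144 * m ^ 2 := (dvd_add_right (dvd_pow_self u (by norm_num))).1 h2
    exact (hco.pow_right (n := 2)).dvd_of_dvd_mul_right h4
  have h3v : v ∣ 225 := by
    have e : u ^ 4 + 144 * m ^ 2 = v * (v * (v ^ 2 - 18 * m)) + 225 * m ^ 2 := by
      have : u ^ 2 = v ^ 2 - 9 * m := by rw [hv]; ring
      have h5 : u ^ 4 = (v ^ 2 - 9 * m) ^ 2 := by rw [← this]; ring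
      rw [h5]; ring
    rw [e] at h2v
    have h4 : v ∣ 225 * m ^ 2 := (dvd_add_right (dvd_mul_right v _)).1 h2v
    exact (hcv.pow_right (n := 2)).dvd_of_dvd_mul_right h4
  have h3w : w ∣ 400 := by
    have e : u ^ 4 + 144 * m ^ 2 = w * (w * (w ^ 2 + 32 * m)) + 400 * m ^ 2 := by
      have : u ^ 2 = w ^ 2 + 16 * m := by rw [hw]; ring
      have h5 : u ^ 4 = (w ^ 2 + 16 * m) ^ 2 := by rw [← this]; ring
      rw [h5]; ring
    rw [e] at h2w
    have h4 : w ∣ 400 * m ^ 2 := (dvd_add_right (dvd_mul_right w _)).1 h2w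
    exact (hcw.pow_right (n := 2)).dvd_of_dvd_mul_right h4
  have hu1 : u.natAbs ∈ Nat.divisors 144 := Nat.mem_divisors.2 ⟨Int.natAbs_dvd_natAbs.2 h3, by norm_num⟩
  have hv1 : v.natAbs ∈ Nat.divisors 225 := Nat.mem_divisors.2 ⟨Int.natAbs_dvd_natAbs.2 h3v, by norm_num⟩
  have hw1 : w.natAbs ∈ Nat.divisors 400 := Nat.mem_divisors.2 ⟨Int.natAbs_dvd_natAbs.2 h3w, by norm_num⟩
  have hus : (u.natAbs : ℤ) ^ 2 = u ^ 2 := Int.natAbs_sq u
  have hvs : (v.natAbs : ℤ) ^ 2 = v ^ 2 := Int.natAbs_sq v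
  have hws : (w.natAbs : ℤ) ^ 2 = w ^ 2 := Int.natAbs_sq w
  have hrel : 25 * u.natAbs ^ 2 = 16 * v.natAbs ^ 2 + 9 * w.natAbs ^ 2 := by
    have : (25 * (u.natAbs : ℤ) ^ 2) = 16 * (v.natAbs : ℤ) ^ 2 + 9 * (w.natAbs : ℤ) ^ 2 := by
      rw [hus, hvs, hws, hv, hw]
      ring
    exact_mod_cast this
  rcases enumB _ _ _ hu1 hv1 hw1 hrel with h | ⟨h4, h5, h6⟩
  · apply hm0
    rw [← h, hus, hv] at hvs
    linarith
  · rw [h4] at hus
    rw [h5] at hvs
    rw [h6] at hws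
    push_cast at hus hvs hws
    have h7 : m = -7 := by linarith
    have e : (2 * u * v * w * u') ^ 2 = 4 * (u ^ 2) * (v ^ 2) * (w ^ 2) * u' ^ 2 := by ring
    have e4 : u ^ 4 = (u ^ 2) ^ 2 := by ring
    rw [e, e4, ← hus, ← hvs, ← hws, h7] at hu
    norm_num at hu
    omega

/-- points which are not integral at three -/
lemma arithA {m u v w u' : ℤ} (hs : Squarefree m) (hu3 : ¬ (3 : ℤ) ∣ u)
    (hv : v ^ 2 = u ^ 2 + 81 * m)
    (hu : (2 * u * v * w * u') ^ 2 = (u ^ 4 + 11664 * m ^ 2) ^ 2) : False := by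
  have hm0 := hs.ne_zero
  have p3 : Prime (3 : ℤ) := Int.prime_three
  have hco3 : IsCoprime u 3 := ((Prime.coprime_iff_not_dvd p3).2 hu3).symm
  have hco : IsCoprime u m := by
    refine cop_of (k := -81) hs (by rw [hv]; ring) ?_
    intro q hq h1 _ h3
    have h4 : q ∣ 3 ^ 4 := by
      have : (q : ℤ) ∣ 81 := by
        rw [← dvd_neg]
        exact h3
      exact_mod_cast this
    have h5 := (Nat.prime_dvd_prime_iff_eq hq Nat.prime_three).1 (hq.dvd_of_dvd_pow h4)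
    rw [h5] at h1
    exact hu3 (by exact_mod_cast h1)
  have hcv : IsCoprime v m := by
    have h1 : IsCoprime (u ^ 2) m := hco.pow_left
    have h2 : IsCoprime (v ^ 2) m := by
      rw [hv]
      exact h1.add_mul_right_left 81
    exact (IsCoprime.pow_left_iff (by norm_num)).1 h2
  have hcv3 : IsCoprime v 3 := by
    have h1 : IsCoprime (u ^ 2) 3 := hco3.pow_left
    have h2 : IsCoprime (v ^ 2) 3 := by
      rw [hv, show (81 : ℤ) * m = (27 * m) * 3 by ring]
      exact h1.add_mul_right_left (27 * m)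
    exact (IsCoprime.pow_left_iff (by norm_num)).1 h2
  have h2 : u ∣ u ^ 4 + 11664 * m ^ 2 := dvd_of_rel (b := 2 * v * w * u') (by rw [← hu]; ring)
  have h2v : v ∣ u ^ 4 + 11664 * m ^ 2 := dvd_of_rel (b := 2 * u * w * u') (by rw [← hu]; ring)
  have h3 : u ∣ 16 := by
    have h4 : u ∣ 11664 * m ^ 2 := (dvd_add_right (dvd_pow_self u (by norm_num))).1 h2
    have h5 : u ∣ 16 * 3 ^ 6 := by
      have := (hco.pow_right (n := 2)).dvd_of_dvd_mul_right h4
      norm_num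
      exact this
    exact (hco3.pow_right (n := 6)).dvd_of_dvd_mul_right h5
  have h3v : v ∣ 25 := by
    have e : u ^ 4 + 11664 * m ^ 2 = v * (v * (v ^ 2 - 162 * m)) + 18225 * m ^ 2 := by
      have : u ^ 2 = v ^ 2 - 81 * m := by rw [hv]; ring
      have h5 : u ^ 4 = (v ^ 2 - 81 * m) ^ 2 := by rw [← this]; ring
      rw [h5]; ring
    rw [e] at h2v
    have h4 : v ∣ 18225 * m ^ 2 := (dvd_add_right (dvd_mul_right v _)).1 h2v
    have h5 : v ∣ 25 * 3 ^ 6 := by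
      have := (hcv.pow_right (n := 2)).dvd_of_dvd_mul_right h4
      norm_num
      exact this
    exact (hcv3.pow_right (n := 6)).dvd_of_dvd_mul_right h5
  have hu1 : u.natAbs ∈ Nat.divisors 16 := Nat.mem_divisors.2 ⟨Int.natAbs_dvd_natAbs.2 h3, by norm_num⟩
  have hv1 : v.natAbs ∈ Nat.divisors 25 := Nat.mem_divisors.2 ⟨Int.natAbs_dvd_natAbs.2 h3v, by norm_num⟩
  have hus : (u.natAbs : ℤ) ^ 2 = u ^ 2 := Int.natAbs_sq u
  have hvs : (v.natAbs : ℤ) ^ 2 = v ^ 2 := Int.natAbs_sq v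
  have h := enumA _ _ hu1 hv1 (by
    rw [hus, hvs, hv]
    have : u ^ 2 + 81 * m - u ^ 2 = 81 * m := by ring
    rw [this]
    exact Int.mul_emod_right 81 m)
  apply hm0
  rw [← h, hus, hv] at hvs
  linarith

/-! ### Points of odd order -/

variable {m : ℤ}

lemma eqnQ {x y : ℚ} (h : (EQm m).toAffine.Nonsingular x y) :
    y ^ 2 = x * (x + 9 * m) * (x - 16 * m) := by
  have := (isR_eqn (isR m)).1 h.1
  rw [this]
  push_cast
  ring

/-- doubling -/
lemma dblQ {x y : ℚ} (h : (EQm m).toAffine.Nonsingular x y) (hy : y ≠ 0) :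
    ∃ X Y, ∃ H : (EQm m).toAffine.Nonsingular X Y,
      (Affine.Point.some x y h + Affine.Point.some x y h : (EQm m).toAffine.Point) =
        Affine.Point.some X Y H ∧ X * (2 * y) ^ 2 = (x ^ 2 + 144 * m ^ 2) ^ 2 := by
  have hR := isR m
  have hneg : y ≠ (EQm m).toAffine.negY x y := by
    intro h1
    apply hy
    rw [Affine.negY, hR.h1, hR.h3] at h1
    linear_combination (1 / 2 : ℚ) * h1
  rw [Affine.Point.add_self_of_Y_ne hneg]
  refine ⟨_, _, _, rfl, ?_⟩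
  have q1 := eqnQ h
  have h2y : 2 * y ≠ 0 := mul_ne_zero two_ne_zero hy
  have hs : (EQm m).toAffine.slope x x y y = (3 * x ^ 2 - 14 * m * x - 144 * m ^ 2) / (2 * y) := by
    rw [Affine.slope_of_Y_ne rfl hneg, Affine.negY, hR.h1, hR.h2, hR.h3, hR.h4]
    congr 1
    · push_cast; ring
    · ring
  rw [Affine.addX, hs, hR.h1, hR.h2, zero_mul, add_zero]
  push_cast
  field_simp
  linear_combination (-4 * (2 * x - 7 * m)) * q1

lemma val_dbl (hm : m ≠ 0) {x y X : ℚ} (h1 : y ^ 2 = x * (x + 9 * m) * (x - 16 * m)) (hy : y ≠ 0)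
    (h2 : X * (2 * y) ^ 2 = (x ^ 2 + 144 * m ^ 2) ^ 2) (hx : padicValRat 2 x < 0) :
    padicValRat 2 X = padicValRat 2 x - 2 := by
  have hx0 : x ≠ 0 := by
    rintro rfl
    simp at hx
  have hy2 : y ^ 2 ≠ 0 := pow_ne_zero 2 hy
  have hxm : x + 9 * m ≠ 0 := by
    intro h
    rw [h1, h] at hy2
    simp at hy2
  have hxm3 : x - 16 * m ≠ 0 := by
    intro h
    rw [h1, h] at hy2
    simp at hy2
  have hmQ : (m : ℚ) ≠ 0 := by exact_mod_cast hm
  have hint : ∀ z : ℤ, 0 ≤ padicValRat 2 (z : ℚ) := by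
    intro z
    rw [padicValRat.of_int]
    exact Int.natCast_nonneg _
  have hpos : (0 : ℚ) < x ^ 2 + 144 * m ^ 2 := by positivity
  have v1 : padicValRat 2 (x + 9 * m) = padicValRat 2 x := by
    have e : x + 9 * (m : ℚ) = x + ((9 * m : ℤ) : ℚ) := by push_cast; ring
    rw [e]
    refine padicValRat.add_eq_of_lt (by rw [← e]; exact hxm) hx0 ?_ (lt_of_lt_of_le hx (hint _))
    push_cast
    exact mul_ne_zero (by norm_num) hmQ
  have v2 : padicValRat 2 (x - 16 * m) = padicValRat 2 x := by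
    have e : x - 16 * (m : ℚ) = x + ((-16 * m : ℤ) : ℚ) := by push_cast; ring
    rw [e]
    refine padicValRat.add_eq_of_lt (by rw [← e]; exact hxm3) hx0 ?_ (lt_of_lt_of_le hx (hint _))
    push_cast
    exact mul_ne_zero (by norm_num) hmQ
  have v3 : padicValRat 2 (x ^ 2 + 144 * m ^ 2) = 2 * padicValRat 2 x := by
    have e : x ^ 2 + 144 * (m : ℚ) ^ 2 = x ^ 2 + ((144 * m ^ 2 : ℤ) : ℚ) := by push_cast; ring
    have e2 : padicValRat 2 (x ^ 2) = 2 * padicValRat 2 x := by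
      rw [padicValRat.pow]
      push_cast
      ring
    rw [e, ← e2]
    refine padicValRat.add_eq_of_lt (by rw [← e]; exact hpos.ne') (pow_ne_zero 2 hx0) ?_ ?_
    · push_cast
      exact mul_ne_zero (by norm_num) (pow_ne_zero 2 hmQ)
    · rw [e2]
      exact lt_of_lt_of_le (by linarith) (hint _)
  have v4 : padicValRat 2 (y ^ 2) = 3 * padicValRat 2 x := by
    rw [h1, padicValRat.mul (mul_ne_zero hx0 hxm) hxm3, padicValRat.mul hx0 hxm, v1, v2]
    ring
  have hX0 : X ≠ 0 := by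
    rintro rfl
    rw [zero_mul] at h2
    exact (pow_ne_zero 2 hpos.ne') h2.symm
  have v5 : padicValRat 2 (X * (2 * y) ^ 2) = padicValRat 2 X + 2 + 3 * padicValRat 2 x := by
    have e : X * (2 * y) ^ 2 = X * 2 ^ 2 * y ^ 2 := by ring
    rw [e, padicValRat.mul (mul_ne_zero hX0 (by norm_num)) hy2,
      padicValRat.mul hX0 (by norm_num), padicValRat.pow, v4]
    have : padicValRat 2 (2 : ℚ) = 1 := by
      have := padicValRat.self (p := 2) (by norm_num)
      exact_mod_cast this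
    rw [this]
    ring
  rw [h2, padicValRat.pow, v3] at v5
  push_cast at v5
  linarith


lemma y_ne {x y : ℚ} (h : (EQm m).toAffine.Nonsingular x y) {N : ℕ} (hN : Odd N)
    (hP : N • (Affine.Point.some x y h : (EQm m).toAffine.Point) = 0) : y ≠ 0 := by
  rintro rfl
  exact Affine.Point.some_ne_zero h (zero_of_two hN hP (dbl_T (isR m) h))

lemma two_adic (hm : m ≠ 0) {x y : ℚ} (h : (EQm m).toAffine.Nonsingular x y) {N : ℕ} (hN : Odd N)
    (hP : N • (Affine.Point.some x y h : (EQm m).toAffine.Point) = 0) : 0 ≤ padicValRat 2 x := by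
  by_contra hx
  push Not at hx
  have key : ∀ j : ℕ, ∃ X Y, ∃ H : (EQm m).toAffine.Nonsingular X Y,
      2 ^ j • (Affine.Point.some x y h : (EQm m).toAffine.Point) = Affine.Point.some X Y H ∧
        padicValRat 2 X = padicValRat 2 x - 2 * j := by
    intro j
    induction j with
    | zero => exact ⟨x, y, h, by rw [pow_zero, one_nsmul], by simp⟩
    | succ j ih =>
      obtain ⟨X, Y, H, e1, e2⟩ := ih
      have hN' : N • (Affine.Point.some X Y H : (EQm m).toAffine.Point) = 0 := by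
        rw [← e1, ← mul_nsmul', mul_comm, mul_nsmul', hP, nsmul_zero]
      have hY := y_ne H hN hN'
      obtain ⟨X', Y', H', e3, e4⟩ := dblQ H hY
      refine ⟨X', Y', H', ?_, ?_⟩
      · rw [pow_succ, mul_comm, mul_nsmul', two_nsmul, e1, e3]
      · rw [val_dbl hm (eqnQ H) hY e4 (by rw [e2]; have : (0 : ℤ) ≤ j := Int.natCast_nonneg j; linarith),
          e2]
        push_cast
        ring
  have hN0 : 0 < N := hN.pos
  obtain ⟨X, Y, H, e1, e2⟩ := key (Nat.totient N)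
  have hmod : 2 ^ Nat.totient N ≡ 1 [MOD N] := Nat.ModEq.pow_totient (Nat.coprime_two_left.2 hN)
  have h1 : 2 ^ Nat.totient N • (Affine.Point.some x y h : (EQm m).toAffine.Point) =
      Affine.Point.some x y h := by
    have h2 : N ∣ 2 ^ Nat.totient N - 1 := (Nat.modEq_iff_dvd' Nat.one_le_two_pow).1 hmod.symm
    obtain ⟨c, hc⟩ := h2
    have h3 : 2 ^ Nat.totient N = c * N + 1 := by
      have := Nat.one_le_two_pow (n := Nat.totient N)
      rw [mul_comm] at hc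
      omega
    rw [h3, add_nsmul, one_nsmul, mul_nsmul', hP, nsmul_zero, zero_add]
  rw [h1] at e1
  injection e1 with e3 e4
  rw [← e3] at e2
  have h5 : 0 < Nat.totient N := Nat.totient_pos.2 hN0
  have h6 : (0 : ℤ) < (Nat.totient N : ℕ) := by exact_mod_cast h5
  linarith

/-- nine times the first coordinate of a point of odd order is an integer -/
lemma int1 (hm : m ≠ 0) {x y : ℚ} (h : (EQm m).toAffine.Nonsingular x y) {N : ℕ} (hN : Odd N)
    (hP : N • (Affine.Point.some x y h : (EQm m).toAffine.Point) = 0) : ∃ z : ℤ, 9 * x = z := by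
  have hD := EQm_Δ_ne hm
  have hfin : IsOfFinAddOrder (Affine.Point.some x y h : (EQm m).toAffine.Point) :=
    isOfFinAddOrder_iff_nsmul_eq_zero.2 ⟨N, hN.pos, hP⟩
  have hfin' := ((vrS m).equiv hD).toAddMonoidHom.isOfFinAddOrder hfin
  have e : ((vrS m).equiv hD).toAddMonoidHom (Affine.Point.some x y h) =
      (vrS m).fn hD (Affine.Point.some x y h) := rfl
  rw [e, (vrS m).fn_some hD h] at hfin'
  have hodd : ∀ p : ℕ, p.Prime → p ≠ 2 → ¬ p ∣ ((3 : ℚ) ^ 2 * x + -21 * m).den := by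
    intro p hp hp2
    haveI := Fact.mk hp
    exact torsion_int p hp2 _ _ _ hfin'
  have h2 : ¬ 2 ∣ x.den := by
    intro hd
    have h0 := two_adic hm h hN hP
    rw [padicValRat_def] at h0
    have h1 : 1 ≤ padicValNat 2 x.den := one_le_padicValNat_of_dvd x.den_nz hd
    have h3 : padicValInt 2 x.num = 0 := by
      rw [padicValInt]
      apply padicValNat.eq_zero_of_not_dvd
      intro h4
      have h5 := Nat.dvd_gcd h4 hd
      rw [x.reduced] at h5
      omega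
    rw [h3] at h0
    have h4 : (1 : ℤ) ≤ (padicValNat 2 x.den : ℤ) := by exact_mod_cast h1
    push_cast at h0
    linarith
  have h1 : ((3 : ℚ) ^ 2 * x + -21 * m).den = 1 := by
    by_contra hne
    obtain ⟨p, hp, hpd⟩ := Nat.exists_prime_and_dvd hne
    by_cases hp2 : p = 2
    · subst hp2
      have e2 : (3 : ℚ) ^ 2 * x + -21 * m = ((9 : ℤ) : ℚ) * x + ((-21 * m : ℤ) : ℚ) := by
        push_cast; ring
      rw [e2] at hpd
      exact h2 (hpd.trans (den_lin x 9 (-21 * m)))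
    · exact hodd p hp hp2 hpd
  refine ⟨((3 : ℚ) ^ 2 * x + -21 * m).num + 21 * m, ?_⟩
  have h3 : (((3 : ℚ) ^ 2 * x + -21 * m).num : ℚ) = (3 : ℚ) ^ 2 * x + -21 * m :=
    Rat.coe_int_num_of_den_eq_one h1
  push_cast
  rw [h3]
  ring

lemma sq_int {q : ℚ} (z : ℤ) (hz : 9 * q = z) (hq : IsSquare q) : ∃ U : ℤ, 9 * q = (U : ℚ) ^ 2 := by
  have h9 : IsSquare (9 * q) := by
    obtain ⟨r, rfl⟩ := hq
    exact ⟨3 * r, by ring⟩
  rw [hz, Rat.isSquare_intCast_iff] at h9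
  obtain ⟨U, hU⟩ := h9
  refine ⟨U, ?_⟩
  rw [hz, hU]
  push_cast
  ring

lemma data (hm : m ≠ 0) {x y : ℚ} (h : (EQm m).toAffine.Nonsingular x y) {N : ℕ} (hN : Odd N)
    (hP : N • (Affine.Point.some x y h : (EQm m).toAffine.Point) = 0) :
    ∃ U V W : ℤ, 9 * x = (U : ℚ) ^ 2 ∧ 9 * (x + 9 * m) = (V : ℚ) ^ 2 ∧
      9 * (x - 16 * m) = (W : ℚ) ^ 2 := by
  obtain ⟨z, hz⟩ := int1 hm h hN hP
  obtain ⟨k, hk⟩ := hN
  -- half of the point
  have hhalf : ∃ x' y', ∃ h' : (EQm m).toAffine.Nonsingular x' y', y' ≠ 0 ∧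
      (Affine.Point.some x' y' h' + Affine.Point.some x' y' h' : (EQm m).toAffine.Point) =
        Affine.Point.some x y h := by
    obtain ⟨Q, hQ⟩ : ∃ Q, Q = (k + 1) • (Affine.Point.some x y h : (EQm m).toAffine.Point) := ⟨_, rfl⟩
    have h1 : Q + Q = Affine.Point.some x y h := by
      rw [hQ, ← add_nsmul]
      have : k + 1 + (k + 1) = N + 1 := by omega
      rw [this, add_nsmul, hP, one_nsmul, zero_add]
    rcases Q with _ | ⟨x', y', h'⟩
    · exact absurd h1.symm (Affine.Point.some_ne_zero h)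
    · refine ⟨x', y', h', ?_, h1⟩
      rintro rfl
      rw [dbl_T (isR m) h'] at h1
      exact Affine.Point.some_ne_zero h h1.symm
  obtain ⟨x', y', h', hy', he⟩ := hhalf
  have hR := isR m
  have k1 := dbl_sq hR two_ne_zero h' hy' h he
  have k2 := dbl_sq hR.rot two_ne_zero h' hy' h he
  have k3 := dbl_sq hR.rot.rot two_ne_zero h' hy' h he
  obtain ⟨U, hU⟩ := sq_int (q := x) z hz (by simpa using k1)
  have k2' : IsSquare (x + 9 * (m : ℚ)) := by
    have e : x - ((-9 * m : ℤ) : ℚ) = x + 9 * m := by push_cast; ring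
    rw [← e]; exact k2
  have k3' : IsSquare (x - 16 * (m : ℚ)) := by
    have e : x - ((16 * m : ℤ) : ℚ) = x - 16 * m := by push_cast; ring
    rw [← e]; exact k3
  obtain ⟨V, hV⟩ := sq_int (q := x + 9 * m) (z + 81 * m) (by
    push_cast; rw [← hz]; ring) k2'
  obtain ⟨W, hW⟩ := sq_int (q := x - 16 * m) (z - 144 * m) (by
    push_cast; rw [← hz]; ring) k3'
  exact ⟨U, V, W, hU, hV, hW⟩

/-- the relation between a point and its double -/
lemma rel2 {x y X : ℚ} {U V W U' : ℤ} (h1 : y ^ 2 = x * (x + 9 * m) * (x - 16 * m))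
    (h2 : X * (2 * y) ^ 2 = (x ^ 2 + 144 * m ^ 2) ^ 2) (hU : 9 * x = (U : ℚ) ^ 2)
    (hV : 9 * (x + 9 * m) = (V : ℚ) ^ 2) (hW : 9 * (x - 16 * m) = (W : ℚ) ^ 2)
    (hU' : 9 * X = (U' : ℚ) ^ 2) :
    (2 * U * V * W * U') ^ 2 = (U ^ 4 + 11664 * m ^ 2) ^ 2 := by
  have h : ((2 * (U : ℚ) * V * W * U') ^ 2) = ((U : ℚ) ^ 4 + 11664 * m ^ 2) ^ 2 := by
    have e4 : (U : ℚ) ^ 4 = ((U : ℚ) ^ 2) ^ 2 := by ring
    have e : (2 * (U : ℚ) * V * W * U') ^ 2 =
        4 * ((U : ℚ) ^ 2 * (V : ℚ) ^ 2 * (W : ℚ) ^ 2 * (U' : ℚ) ^ 2) := by ring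
    rw [e, e4, ← hU, ← hV, ← hW, ← hU']
    linear_combination 6561 * h2 - 26244 * X * h1
  exact_mod_cast h

/-- **There is no nonzero point of odd order.** -/
theorem no_odd (hs : Squarefree m)
    (P : (EQm m).toAffine.Point) {N : ℕ} (hN : Odd N) (hP : N • P = 0) : P = 0 := by
  by_contra hne
  have hm0 := hs.ne_zero
  rcases P with _ | ⟨x, y, h⟩
  · exact hne rfl
  obtain ⟨X, Y, H, e1, e2⟩ := dblQ h (y_ne h hN hP)
  have hP' : N • (Affine.Point.some X Y H : (EQm m).toAffine.Point) = 0 := by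
    rw [← e1, nsmul_add, hP, add_zero]
  obtain ⟨X2, Y2, H2, e3, e4⟩ := dblQ H (y_ne H hN hP')
  have hP2 : N • (Affine.Point.some X2 Y2 H2 : (EQm m).toAffine.Point) = 0 := by
    rw [← e3, nsmul_add, hP', add_zero]
  obtain ⟨U, V, W, hU, hV, hW⟩ := data hm0 h hN hP
  obtain ⟨U', V', W', hU', hV', hW'⟩ := data hm0 H hN hP'
  obtain ⟨U2, V2, W2, hU2, hV2, hW2⟩ := data hm0 H2 hN hP2
  have r1 := rel2 (eqnQ h) e2 hU hV hW hU'
  have r2 := rel2 (eqnQ H) e4 hU' hV' hW' hU2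
  have ev : ∀ {x : ℚ} {U V : ℤ}, 9 * x = (U : ℚ) ^ 2 → 9 * (x + 9 * m) = (V : ℚ) ^ 2 →
      V ^ 2 = U ^ 2 + 81 * m := by
    intro x U V h1 h2
    have h3 : (V : ℚ) ^ 2 = (U : ℚ) ^ 2 + 81 * m := by rw [← h1, ← h2]; ring
    exact_mod_cast h3
  have ew : ∀ {x : ℚ} {U W : ℤ}, 9 * x = (U : ℚ) ^ 2 → 9 * (x - 16 * m) = (W : ℚ) ^ 2 →
      W ^ 2 = U ^ 2 - 144 * m := by
    intro x U W h1 h2
    have h3 : (W : ℚ) ^ 2 = (U : ℚ) ^ 2 - 144 * m := by rw [← h1, ← h2]; ring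
    exact_mod_cast h3
  by_cases h3 : (3 : ℤ) ∣ U
  swap
  · exact arithA hs h3 (ev hU hV) r1
  by_cases h3' : (3 : ℤ) ∣ U'
  swap
  · exact arithA hs h3' (ev hU' hV') r2
  have hv := ev hU hV
  have hw := ew hU hW
  have p3 : Prime (3 : ℤ) := Int.prime_three
  obtain ⟨u, rfl⟩ := h3
  obtain ⟨u', rfl⟩ := h3'
  obtain ⟨v, rfl⟩ : (3 : ℤ) ∣ V := by
    refine p3.dvd_of_dvd_pow (n := 2) ?_
    rw [hv]
    exact ⟨3 * u ^ 2 + 27 * m, by ring⟩
  obtain ⟨w, rfl⟩ : (3 : ℤ) ∣ W := by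
    refine p3.dvd_of_dvd_pow (n := 2) ?_
    rw [hw]
    exact ⟨3 * u ^ 2 - 48 * m, by ring⟩
  refine arithB (u := u) (v := v) (w := w) (u' := u') hs (by linarith) (by linarith) ?_
  have e : ((81 : ℤ) ^ 2) * (2 * u * v * w * u') ^ 2 = 81 ^ 2 * (u ^ 4 + 144 * m ^ 2) ^ 2 := by
    linear_combination r1
  exact mul_left_cancel₀ (by norm_num) e

/-- **The torsion subgroup has order four.** -/
theorem tors_Em (hs : Squarefree m) (h1 : m ≠ 1) (h2 : m ≠ -1) :
    Nat.card (AddCommGroup.torsion (EQm m).toAffine.Point) = 4 := by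
  have hm := hs.ne_zero
  have hfin : Finite (AddCommGroup.torsion (EQm m).toAffine.Point) := finite_tors (fg_E hm)
  obtain ⟨t, ht, he⟩ := Pool.Agent.N875.S15.tors_Em hs h1 h2
  by_cases ht1 : t = 1
  · rw [he, ht1]
  exfalso
  obtain ⟨l, hl, hlt⟩ := Nat.exists_prime_and_dvd ht1
  have hl2 : Odd l := by
    obtain ⟨c, rfl⟩ := hlt
    exact (Nat.odd_mul.1 ht).1
  haveI := Fact.mk hl
  obtain ⟨x, hx⟩ := exists_prime_addOrderOf_dvd_card' (G := AddCommGroup.torsion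
    (EQm m).toAffine.Point) l (by
      rw [he]
      exact hlt.mul_left 4)
  have h2 : l • x = 0 := by
    rw [← hx]
    exact addOrderOf_nsmul_eq_zero x
  have h3 : l • (x : (EQm m).toAffine.Point) = 0 := congrArg Subtype.val h2
  have h4 := no_odd hs _ hl2 h3
  have h5 : x = 0 := Subtype.ext h4
  rw [h5, addOrderOf_zero] at hx
  exact hl.one_lt.ne hx


/-- **The torsion subgroup of the minimal equation has order four.** -/
theorem tors_EE (hs : Squarefree m) (h1 : m ≠ 1) (h2 : m ≠ -1) :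
    Nat.card (AddCommGroup.torsion ((Pool.Agent.N218.T15.EE m).map
      (Int.castRingHom ℚ)).toAffine.Point) = 4 := by
  by_cases h4 : m % 4 = 1
  · have e : Pool.Agent.N218.T15.EE m = WN m := if_pos h4
    rw [e, ← tors_Em hs h1 h2]
    exact Pool.Agent.N875.X15.tors_congr
      ((Pool.Agent.N875.X15.vr h4 ℚ).equiv (Pool.Agent.N875.X15.WN_Δ_ne h4 ℚ))
  · have e : Pool.Agent.N218.T15.EE m = Em m := if_neg h4
    rw [e]
    exact tors_Em hs h1 h2

end Pool.Agent.N871.S15
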