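import Pool.Agent.N871.S15.Nis
import Pool.Agent.N974.T15.Neg

/-!
# Level `15`: the class `Nis` in the form `RelN`
-/

set_option autoImplicit false

open Finset

namespace Pool.Agent.N871.S15

open Pool.Agent.N969.P15 (un)
open Pool.Agent.N969.P17G (chM)
open Pool.Agent.N973.P15G
open Pool.Agent.N972.GC (CM)
open Pool.Agent.N974.T15 (RelN)

/-- **the class `Nis`** -/
theorem relN_Nis {n : ℕ} (hn : Nis n) (h4 : 4 < n) {w : ℕ → ℤ} (hw : ∀ u : ℕ, w u = chM n u) :
    RelN n w (4 ^ n.primeFactors.card * 16) (CM (-3) 5 n) := by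
  obtain ⟨y, hy, h⟩ := nis_rel hn h4
  refine ⟨y, 1, by decide, hy, fun s a g => ⟨s (1 / 3), s13_odd g, ?_⟩⟩
  simp only [hw, mul_one]
  exact h s a g

end Pool.Agent.N871.S15
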