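import Pool.Agent.N871.S15.VanL

/-!
# Level `15`: the quadratic characters of all twists; the central values vanish for the root number `-1`
-/

set_option autoImplicit false
set_option linter.style.haveILetI false

open Finset UpperHalfPlane MatrixGroups CongruenceSubgroup ZMod

namespace Pool.Agent.N871.S15

open Pool.Agent.N974.MF (f15 E15)
open Pool.Agent.W97.MT (ap)
open Pool.Agent.Y700 (IsL Omega)
open Pool.Agent.N218.T15 (EE)
open Pool.Agent.N875.X15 (WN Em)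
open Pool.Agent.N875.S15

theorem EE_odd {m : ℤ} (h4 : m % 4 = 1) : EE m = WN m := if_pos h4

theorem EE_even {m : ℤ} (h4 : m % 4 ≠ 1) : EE m = Em m := if_neg h4

theorem jac_mod {n : ℕ} {a b : ℤ} (h : (n : ℤ) ∣ a - b) : jacobiSym a n = jacobiSym b n := by
  have e : a % (n : ℤ) = b % n := (Int.modEq_iff_dvd.2 h).symm
  rw [jacobiSym.mod_left a n, jacobiSym.mod_left b n, e]

/-- odd discriminants -/
theorem chr_odd {m : ℤ} (hs : Squarefree m) (h1 : m ≠ 1) (h4 : m % 4 = 1) :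
    Chr m m.natAbs (fun u => jacobiSym u m.natAbs) := by
  have hodd : Odd m.natAbs := Nat.odd_iff.2 (by omega)
  have hsn : Squarefree m.natAbs := Int.squarefree_natAbs.2 hs
  have hlt : 1 < m.natAbs := by omega
  haveI : NeZero m.natAbs := ⟨by omega⟩
  obtain ⟨d, hd⟩ : ∃ d : Pool.Agent.H491R3.J.OS, d = ⟨m.natAbs, hodd, hsn, hlt⟩ := ⟨_, rfl⟩
  refine ⟨hlt, fun a b => jacobiSym.mul_left a b _, fun a b h => jac_mod h, ?_, ?_,
    jacobiSym.one_left _, ?_, ?_, ?_, ?_, ?_, ?_⟩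
  · intro u hu
    exact jacobiSym.eq_one_or_neg_one (by rw [Int.gcd_natCast_natCast]; exact hu)
  · intro u hu
    show jacobiSym u m.natAbs = 0
    rw [jacobiSym.eq_zero_iff_not_coprime, Int.gcd_natCast_natCast]
    exact hu
  · show jacobiSym (-1) m.natAbs = _
    rw [jacobiSym.at_neg_one hodd]
    split_ifs with h
    · exact ZMod.χ₄_nat_one_mod_four (by omega)
    · exact ZMod.χ₄_nat_three_mod_four (by omega)
  · intro p hp hp2
    exact (Pool.Agent.N875.X15.recip h4 (hp.odd_of_ne_two hp2)).symm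
  · intro p _ _
    exact Int.natCast_dvd.symm
  · subst hd
    exact ⟨inferInstance, H491R3.J.chi ⟨m.natAbs, hodd, hsn, hlt⟩,
      H491R3.J.chi_primitive ⟨m.natAbs, hodd, hsn, hlt⟩,
      H491R3.J.chi_inv ⟨m.natAbs, hodd, hsn, hlt⟩,
      H491R3.J.chi_natCast ⟨m.natAbs, hodd, hsn, hlt⟩⟩
  · intro p hp
    rw [EE_odd h4]
    exact ap_WN h4 p hp
  · intro p hp
    rw [EE_odd h4, dvd_Δ (WN_Δ' h4) hp, Int.natCast_dvd]

theorem d2 {p : ℕ} (hp : p.Prime) (hp2 : p ≠ 2) {k : ℕ} : p ∣ 4 * k ↔ p ∣ k := by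
  have hc : Nat.Coprime p 4 := by
    rw [show (4 : ℕ) = 2 ^ 2 by norm_num]
    exact Nat.Coprime.pow_right 2 ((Nat.coprime_primes hp Nat.prime_two).2 hp2)
  exact hc.dvd_mul_left

open Pool.Agent.N969.P15 (Ev chE) in
open Pool.Agent.N975.ChE in
/-- negative even discriminants -/
theorem chr_neg {m : ℤ} (hs : Squarefree m) (h0 : m < 0) (h4 : m % 4 ≠ 1) :
    Chr m (4 * m.natAbs) (fun u => chE (4 * m.natAbs) u) := by
  have hsn : Squarefree m.natAbs := Int.squarefree_natAbs.2 hs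
  have h44 : m.natAbs % 4 ≠ 0 := by
    intro h0
    have h1 : 2 * 2 ∣ m.natAbs := by omega
    exact absurd (Nat.isUnit_iff.1 (hsn 2 h1)) (by norm_num)
  have hE : Ev (4 * m.natAbs) := ⟨m.natAbs, rfl, hsn, by omega⟩
  have hm := ev_mod hE
  haveI : NeZero (4 * m.natAbs) := ⟨by omega⟩
  have e4 : ((4 * m.natAbs / 4 : ℕ) : ℤ) = -m := by omega
  refine ⟨by omega, chE_mul _, fun a b h => chE_mod hm h, fun u hu => chE_pm hm hu,
    fun u hu => chE_zero hm hu, chE_one _, ?_, ?_, ?_, ?_, ?_, ?_⟩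
  · show chE (4 * m.natAbs) (-1) = _
    rw [Pool.Agent.N975.CHB.chE_neg_one hE, if_neg (by omega)]
  · intro p hp hp2
    show chE (4 * m.natAbs) p = _
    rw [chE_prime hE hp hp2, e4, neg_neg]
  · intro p hp hp2
    rw [d2 hp hp2]
    exact Int.natCast_dvd.symm
  · exact ⟨inferInstance, chi (4 * m.natAbs) hm, chi_primitive hE, chi_inv _ hm, chi_nat _ hm⟩
  · intro p hp
    have := ap_En hE p hp
    rw [e4, neg_neg] at this
    rw [EE_even h4]
    exact this
  · intro p hp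
    rw [EE_even h4, dvd_Δ (Em_Δ' m) hp, Int.natCast_dvd, Int.natAbs_mul]
    rfl

open Pool.Agent.N974.Gen.ChP in
/-- positive even discriminants -/
theorem chr_pos {m : ℤ} (hs : Squarefree m) (h0 : 0 < m) (h4 : m % 4 ≠ 1) :
    Chr m (4 * m.natAbs) (fun u => Pool.Agent.N974.Gen.ChP.chE (4 * m.natAbs) u) := by
  have hsn : Squarefree m.natAbs := Int.squarefree_natAbs.2 hs
  have h44 : m.natAbs % 4 ≠ 0 := by
    intro h0
    have h1 : 2 * 2 ∣ m.natAbs := by omega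
    exact absurd (Nat.isUnit_iff.1 (hsn 2 h1)) (by norm_num)
  have hE : Pool.Agent.N974.Gen.ChP.Ev (4 * m.natAbs) := ⟨m.natAbs, rfl, hsn, by omega⟩
  have hm := ev_mod hE
  haveI : NeZero (4 * m.natAbs) := ⟨by omega⟩
  have e4 : ((4 * m.natAbs / 4 : ℕ) : ℤ) = m := by omega
  refine ⟨by omega, chE_mul _, fun a b h => chE_mod hm h, fun u hu => chE_pm hm hu,
    fun u hu => chE_zero hm hu, chE_one _, ?_, ?_, ?_, ?_, ?_, ?_⟩
  · show Pool.Agent.N974.Gen.ChP.chE (4 * m.natAbs) (-1) = _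
    rw [Pool.Agent.N974.PG.chE_neg_one hE, if_pos h0]
  · intro p hp hp2
    show Pool.Agent.N974.Gen.ChP.chE (4 * m.natAbs) p = _
    rw [Pool.Agent.N974.Gen.ChP.chE_prime hE hp hp2, e4]
  · intro p hp hp2
    rw [d2 hp hp2]
    exact Int.natCast_dvd.symm
  · exact ⟨inferInstance, chi (4 * m.natAbs) hm, chi_primitive hE, chi_inv _ hm, chi_nat _ hm⟩
  · intro p hp
    have := ap_Ep hE p hp
    rw [e4] at this
    rw [EE_even h4]
    exact this
  · intro p hp
    rw [EE_even h4, dvd_Δ (Em_Δ' m) hp, Int.natCast_dvd, Int.natAbs_mul]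
    rfl

theorem exists_chr {m : ℤ} (hs : Squarefree m) (h1 : m ≠ 1) : ∃ q χ, Chr m q χ := by
  by_cases h4 : m % 4 = 1
  · exact ⟨_, _, chr_odd hs h1 h4⟩
  · rcases lt_trichotomy m 0 with h0 | h0 | h0
    · exact ⟨_, _, chr_neg hs h0 h4⟩
    · exact absurd h0 hs.ne_zero
    · exact ⟨_, _, chr_pos hs h0 h4⟩

/-! ### the real period -/

theorem c4_Em (m : ℤ) : (Em m).c₄ = 481 * (4 * m) ^ 2 := by
  simp only [Em, WeierstrassCurve.c₄, WeierstrassCurve.b₂, WeierstrassCurve.b₄]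
  ring

theorem c6_Em (m : ℤ) : (Em m).c₆ = 4879 * (4 * m) ^ 3 := by
  simp only [Em, WeierstrassCurve.c₆, WeierstrassCurve.b₂, WeierstrassCurve.b₄,
    WeierstrassCurve.b₆]
  ring

/-- the discriminant of the field -/
def KD (m : ℤ) : ℤ := if m % 4 = 1 then m else 4 * m

theorem c4_EE (m : ℤ) : (EE m).c₄ = 481 * (KD m) ^ 2 := by
  unfold KD
  split_ifs with h
  · rw [EE_odd h, c4_WN h]
  · rw [EE_even h, c4_Em]

theorem c6_EE (m : ℤ) : (EE m).c₆ = 4879 * (KD m) ^ 3 := by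
  unfold KD
  split_ifs with h
  · rw [EE_odd h, c6_WN h]
  · rw [EE_even h, c6_Em]

theorem omega_pos {W : WeierstrassCurve ℤ} {D : ℤ} (hD : D ≠ 0) (h4 : W.c₄ = 481 * D ^ 2)
    (h6 : W.c₆ = 4879 * D ^ 3) : 0 < Omega W := by
  obtain ⟨L, Op, Om, hOp, hOm, g2, g3, hL⟩ := Pool.Agent.N974.P15.hlat
  rcases lt_or_gt_of_ne hD with h | h
  · obtain ⟨k, hk⟩ := Int.eq_ofNat_of_zero_le (by omega : 0 ≤ -D)
    have e : D = -(k : ℤ) := by omega
    subst e
    have hk0 : 0 < k := by omega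
    rw [Pool.Agent.N971.EX.omega_neg L Op Om hOp hOm (c4 := 481) (c6 := 4879)
      (by rw [g2]; push_cast; rfl) (by rw [g3]; push_cast; rfl) hL k hk0 W
      (by rw [h4]; ring) (by rw [h6]; ring)]
    have : (0 : ℝ) < k := by exact_mod_cast hk0
    positivity
  · obtain ⟨k, hk⟩ := Int.eq_ofNat_of_zero_le (by omega : 0 ≤ D)
    subst hk
    have hk0 : 0 < k := by omega
    rw [Pool.Agent.N971.EX.omega_pos L Op Om hOp hOm (c4 := 481) (c6 := 4879)
      (by rw [g2]; push_cast; rfl) (by rw [g3]; push_cast; rfl) hL k hk0 W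
      (by rw [h4]) (by rw [h6])]
    have : (0 : ℝ) < k := by exact_mod_cast hk0
    positivity

theorem KD_ne {m : ℤ} (h : m ≠ 0) : KD m ≠ 0 := by
  unfold KD
  split_ifs <;> omega

theorem omega_EE {m : ℤ} (h : m ≠ 0) : 0 < Omega (EE m) :=
  omega_pos (KD_ne h) (c4_EE m) (c6_EE m)

/-- **all the quadratic twists with the root number `-1`: the central value vanishes** -/
theorem vanish {m : ℤ} (hs : Squarefree m) (h : Rm m) :
    0 < Omega (EE m) ∧ ∃ f : ℂ → ℂ, IsL (EE m) f ∧ f 1 = 0 := by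
  have h1 : m ≠ 1 := by
    rintro rfl
    unfold Rm at h
    norm_num at h
  obtain ⟨q, χ, H⟩ := exists_chr hs h1
  exact ⟨omega_EE hs.ne_zero, H.van h⟩

end Pool.Agent.N871.S15
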