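import Pool.Agent.N973.P15G.Fin

/-!
# Level `15`: the central values of the twists by negative discriminants, `3` inert and `5` split
-/

set_option autoImplicit false

open Finset

namespace Pool.Agent.N871.S15

open Pool.Agent.N969.P15 (un Fp)
open Pool.Agent.N969.P17G (chM)
open Pool.Agent.N973.P15G
open Pool.Agent.N973.P15G.F (u_DIAG4 ce_par)
open Pool.Agent.N218.P15G.Lneg (ng_pos)
open Pool.Agent.N972.GC (CM)
open Pool.Agent.N974.MF (Symb15)
open Pool.Agent.N975.T1 (symbM_of)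

theorem s13_odd {s : ℚ → ℤ} {a : ℕ → ℤ} (g : Symb15 s a) : Odd (s (1 / 3)) :=
  g.odd3 (1 / 3) (by norm_num) (by norm_num)

/-- the character sum of the symbol is a square times an odd constant -/
theorem nis_sum {s : ℚ → ℤ} {a : ℕ → ℤ} (g : Symb15 s a) {n : ℕ} (hn : Nis n) :
    ∑ u ∈ un n, chM n u * s ((u : ℚ) / n) = s (1 / 3) * ce n ^ 2 := by
  rw [Pool.Agent.N975.T2.sum_symb (symbM_of g) (ng_pos hn.1) (c15_n hn).symm (fun u => chM n u),
    g.s14]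
  have h1 := u_DIAG4 n hn
  linear_combination (s (1 / 3)) * h1

/-- **the value for the class `Nis`** -/
theorem nis_rel {n : ℕ} (hn : Nis n) (h4 : 4 < n) : ∃ y : ℤ, (Odd y ↔ CM (-3) 5 n) ∧
    ∀ (s : ℚ → ℤ) (a : ℕ → ℤ), Symb15 s a → 4 * ∑ u ∈ un n, chM n u * s ((u : ℚ) / n) =
      s (1 / 3) * ((4 ^ n.primeFactors.card * 16 : ℕ) : ℤ) * y ^ 2 := by
  obtain ⟨c, hc, hc2⟩ := ce_par hn h4
  refine ⟨c, hc2, fun s a g => ?_⟩
  rw [nis_sum g hn, hc]
  push_cast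
  have e : ((2 : ℤ) ^ (n.primeFactors.card + 1)) ^ 2 = 4 * 4 ^ n.primeFactors.card := by
    rw [← pow_mul, mul_comm (n.primeFactors.card + 1) 2, pow_mul, pow_succ]
    norm_num
    ring
  linear_combination 4 * s (1 / 3) * c ^ 2 * e

/-- `n = 4` -/
theorem nis_four {s : ℚ → ℤ} {a : ℕ → ℤ} (g : Symb15 s a) :
    ∑ u ∈ un 4, chM 4 u * s ((u : ℚ) / ((4 : ℕ) : ℚ)) = 4 * s (1 / 3) := by
  rw [nis_sum g ⟨Ng_four, by norm_num, by norm_num⟩]
  have : ce ((4 : ℕ) : ℤ) = 2 := ce_four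
  rw [this]
  ring

end Pool.Agent.N871.S15
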