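import Pool.Agent.N871.S15.OneT
import Pool.Agent.N871.S15.Nis
import Pool.Agent.N871.S15.ChrE
import Pool.Agent.N974.T15.Ex4
import Pool.Agent.N875.S15.Asm

/-!
# Level `15`: the exact central values of the twists by `1` and `-1`
-/

set_option autoImplicit false
set_option linter.style.haveILetI false

open Finset ZMod

namespace Pool.Agent.N871.S15

open Pool.Agent.N974.Gen (II)
open Pool.Agent.N974.MF (f15 E15 Symb15)
open Pool.Agent.N974.GN (eigen15)
open Pool.Agent.N969.P15 (un Ev chE)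
open Pool.Agent.N969.P17G (chM)
open Pool.Agent.W97.MT (ap)
open Pool.Agent.Y700 (IsL tamProd Omega)
open Pool.Agent.N218.T15 (EE)
open Pool.Agent.N875.X15 (WN Em Fin2 omega_eq per_neg)
open Pool.Agent.N875.S15

/-! ### the condition -/

theorem fin2_one : Fin2 ((EE 1).map (Int.castRingHom ℚ)) := by
  rw [fin2_EE squarefree_one, Pool.Agent.N875.D15.fin2_iff_sg15 squarefree_one]
  exact Or.inr (Or.inl rfl)

theorem sq_neg_one : Squarefree (-1 : ℤ) := by
  rw [← Int.squarefree_natAbs]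
  norm_num

theorem fin2_neg_one : Fin2 ((EE (-1)).map (Int.castRingHom ℚ)) := by
  rw [fin2_EE sq_neg_one, Pool.Agent.N875.D15.fin2_iff_sg15 sq_neg_one]
  exact Or.inr (Or.inr rfl)

/-! ### `m = 1` -/

theorem un_one : un 1 = {0} := by decide

theorem gauss_one : gaussSum (1 : DirichletCharacter ℂ 1) (stdAddChar (N := 1)) = 1 := by
  unfold gaussSum
  rw [Fintype.sum_subsingleton _ (1 : ZMod 1)]
  rw [MulChar.map_one, one_mul, Subsingleton.elim (1 : ZMod 1) 0, AddChar.map_zero_eq_one]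

/-- **the value of `X_0(15)`** -/
theorem value_one : 0 < Omega (EE 1) ∧ ∃ f : ℂ → ℂ, IsL (EE 1) f ∧
    f 1 = ((Omega (EE 1) / 8 : ℝ) : ℂ) := by
  obtain ⟨L, Op, Om, hOp, hOm, g2, g3, hL⟩ := Pool.Agent.N974.P15.hlat
  have hky := Pool.Agent.N974.T15.scale15e L Op Om hOp hOm g2 g3 hL
  have hk2 := Pool.Agent.N974.T15.ky_II
  have hΩ : Omega (EE 1) = 2 * Op := by
    have h := Pool.Agent.N971.EX.omega_pos L Op Om hOp hOm
      (c4 := 481) (c6 := 4879) (by rw [g2]; push_cast; rfl) (by rw [g3]; push_cast; rfl) hL 1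
      (by norm_num) (EE 1) (by
        have := c4_EE 1
        rw [this]
        rfl) (by
        have := c6_EE 1
        rw [this]
        rfl)
    rw [h]
    simp
  have h4 : (1 : ℤ) % 4 = 1 := by norm_num
  obtain ⟨g, hg, hv⟩ := Pool.Agent.N971.EX.exists_LG eigen15 (EE 1) (q := 1)
    (1 : DirichletCharacter ℂ 1) DirichletCharacter.isPrimitive_one_level_one inv_one (fun _ => 1)
    (fun u => by
      rw [Subsingleton.elim (u : ZMod 1) 1, MulChar.map_one]
      simp)
    (fun p _ => Or.inr (Or.inl rfl))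
    (fun p hp => by
      rw [EE_odd h4, ap_WN h4 p hp]
      simp)
    (fun p hp => by
      rw [EE_odd h4, dvd_Δ (WN_Δ' h4) hp]
      refine or_congr Iff.rfl ?_
      constructor
      · intro h
        have h1 : p ∣ 1 := by exact_mod_cast h
        exact absurd (Nat.dvd_one.1 h1) hp.ne_one
      · intro h
        exact absurd h (by norm_num))
  refine ⟨by rw [hΩ]; linarith, g, hg, ?_⟩
  rw [gauss_one, one_mul, un_one, sum_singleton] at hv
  have e0 : ((0 : ℕ) : ℚ) / ((1 : ℕ) : ℚ) = 0 := by norm_num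
  rw [e0] at hv
  rw [hv, hΩ]
  have him : (II f15 0).im = 0 := Pool.Agent.N974.Gen.II_zero_im f15 eigen15.real
  have hre : (II f15 0).re = Op / 4 := by linarith
  apply Complex.ext
  · rw [Complex.ofReal_re]
    simp [hre]
    ring
  · rw [Complex.ofReal_im]
    simp [him]

theorem exact_one : 0 < Omega (EE 1) ∧ ∃ f : ℂ → ℂ, IsL (EE 1) f ∧
    f 1 = ((Omega (EE 1) * tamProd (EE 1) / 64 : ℝ) : ℂ) := by
  obtain ⟨h, f, hf, hv⟩ := value_one
  refine ⟨h, f, hf, ?_⟩
  have hT : tamProd (EE 1) = 8 := by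
    rw [Pool.Agent.N218.T15.tamProd_EE squarefree_one]
    unfold Pool.Agent.N218.T21.Kd Pool.Agent.N218.T15.t3 Pool.Agent.N218.T15.t5
    norm_num
  rw [hv, hT]
  congr 1
  push_cast
  ring

/-! ### `m = -1` -/

theorem ev_four : Ev 4 := ⟨1, rfl, squarefree_one, Or.inl rfl⟩

/-- **the value of the twist by `-1`** -/
theorem value_neg_one : 0 < Omega (EE (-1)) ∧ ∃ f : ℂ → ℂ, IsL (EE (-1)) f ∧
    f 1 = ((Omega (EE (-1)) : ℝ) : ℂ) := by
  obtain ⟨L, Op, Om, hOp, hOm, g2, g3, hL⟩ := Pool.Agent.N974.P15.hlat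
  obtain ⟨s, him, hsym, h13⟩ := Pool.Agent.N974.T15.scale15o L Op Om hOp hOm g2 g3 hL
  have hΩ : Omega (EE (-1)) = 2 * Om / √((4 : ℕ) : ℝ) := by
    rw [omega_eq, per_neg L Op Om hOp hOm g2 g3 hL 4 (by norm_num) (EE (-1)) (by
      rw [c4_EE]
      unfold KD
      norm_num) (by
      rw [c6_EE]
      unfold KD
      norm_num)]
    ring
  have H := chr_neg sq_neg_one (by norm_num) (by norm_num)
  have e4 : 4 * (-1 : ℤ).natAbs = 4 := by norm_num
  rw [e4] at H
  obtain ⟨_, ψ, h1, h2, h3⟩ := H.dir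
  have hE := ev_four
  have hm := Pool.Agent.N975.ChE.ev_mod hE
  obtain ⟨g, hg, hv⟩ := Pool.Agent.N971.EX.value_odd eigen15 (EE (-1)) (q := 4) (by norm_num)
    ψ h1 h2 (by
      have h5 := h3 3
      have h6 : ((3 : ℕ) : ZMod 4) = -1 := by decide
      rw [h6] at h5
      rw [h5]
      have h7 := H.per ((3 : ℕ) : ℤ) (-1) (by norm_num)
      have h8 := H.neg
      rw [if_neg (by norm_num)] at h8
      rw [h7, h8]
      norm_num)
    (Pool.Agent.N971.EX.gauss_chE hE ψ h3) (fun u => chE 4 u) h3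
    (fun p hp => by
      by_cases hpq : Nat.Coprime p 4
      · exact Or.inr (H.pm p hpq)
      · exact Or.inl (H.zero p hpq)) H.ap (fun p hp => by
        rw [H.disc p hp]
        refine or_congr Iff.rfl ?_
        constructor
        · intro h4
          exact H.zero p fun h5 => (Nat.Prime.coprime_iff_not_dvd hp).1 h5 h4
        · intro h4
          by_contra h5
          rcases H.pm p ((Nat.Prime.coprime_iff_not_dvd hp).2 h5) with h6 | h6 <;>
            rw [h6] at h4 <;> norm_num at h4)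
  have hs4 : √((4 : ℕ) : ℝ) = 2 := by
    push_cast
    rw [show (4 : ℝ) = 2 ^ 2 by norm_num, Real.sqrt_sq (by norm_num)]
  have hsum : ∑ a ∈ un 4, (chE 4 a : ℝ) * (II f15 ((a : ℚ) / ((4 : ℕ) : ℚ))).im =
      Om / 2 * ((∑ u ∈ un 4, chM 4 u * s ((u : ℚ) / ((4 : ℕ) : ℚ)) : ℤ) : ℝ) := by
    push_cast
    rw [Finset.mul_sum]
    refine Finset.sum_congr rfl fun a _ => ?_
    have := him ((a : ℚ) / ((4 : ℕ) : ℚ))
    push_cast at this
    rw [this, Pool.Agent.N973.P15G.chM_even hE]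
    ring
  refine ⟨by rw [hΩ, hs4]; linarith, g, hg, ?_⟩
  rw [hv, hsum, nis_four hsym, h13, hΩ, hs4]
  congr 1
  push_cast
  ring

theorem exact_neg_one : 0 < Omega (EE (-1)) ∧ ∃ f : ℂ → ℂ, IsL (EE (-1)) f ∧
    f 1 = ((Omega (EE (-1)) * tamProd (EE (-1)) / 64 : ℝ) : ℂ) := by
  obtain ⟨h, f, hf, hv⟩ := value_neg_one
  refine ⟨h, f, hf, ?_⟩
  have hT : tamProd (EE (-1)) = 64 := by
    rw [Pool.Agent.N218.T15.tamProd_EE sq_neg_one]
    have e1 : (Pool.Agent.N218.T21.Kd (-1)).primeFactors.card = 1 := by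
      have : Pool.Agent.N218.T21.Kd (-1) = 4 := by
        unfold Pool.Agent.N218.T21.Kd
        norm_num
      rw [this, show (4 : ℕ) = 2 ^ 2 by norm_num, Nat.primeFactors_prime_pow (by norm_num)
        Nat.prime_two, card_singleton]
    rw [e1]
    unfold Pool.Agent.N218.T15.t3 Pool.Agent.N218.T15.t5
    norm_num
  rw [hv, hT]
  congr 1
  push_cast
  ring

end Pool.Agent.N871.S15
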