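import Pool.Agent.N871.S15.Tors

/-!
# The torsion subgroups of the twists of `X_0(15)` by `1` and `-1` have order eight
-/

set_option autoImplicit false
set_option linter.style.haveILetI false

namespace Pool.Agent.N871.S15

open WeierstrassCurve
open Pool.Agent.TH841.SH (IsR)
open Pool.Agent.N875.X15 (dbl_sq dbl_T isR_eqn two_tor finite_tors Em EQm isR nonsing T4 T4_card T4_two
  fg_E mem_T4 WN WNQ)

open scoped Classical

/-- a finite group with four elements killed by two, in which the doubles are `0` and `t` -/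
theorem card_eight {A : Type} [AddCommGroup A] [Finite A] (h2 : Nat.card {x : A // x + x = 0} = 4)
    (t : A) (ht : t ≠ 0) (hx : ∀ x : A, x + x = 0 ∨ x + x = t) (hex : ∃ p : A, p + p = t) :
    Nat.card A = 8 := by
  let f : A →+ A := (AddMonoidHom.id A) + (AddMonoidHom.id A)
  have hf : ∀ x, f x = x + x := fun x => rfl
  have hker : Nat.card f.ker = 4 := by
    rw [← h2]
    exact Nat.card_congr (Equiv.subtypeEquivRight fun x => by rw [AddMonoidHom.mem_ker, hf])
  have hr : Nat.card f.range = 2 := by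
    have e : (f.range : Set A) = {0, t} := by
      ext y
      constructor
      · rintro ⟨x, rfl⟩
        rw [hf]
        exact hx x
      · rintro (rfl | rfl)
        · exact f.range.zero_mem
        · obtain ⟨p, hp⟩ := hex
          exact ⟨p, by rw [hf, hp]⟩
    have h3 : Nat.card f.range = Nat.card ((f.range : Set A)) := rfl
    rw [h3, e, Nat.card_eq_fintype_card, Set.card_insert _ (by
      rw [Set.mem_singleton_iff]
      exact ht.symm)]
    simp
  have h1 := AddSubgroup.card_eq_card_quotient_mul_card_addSubgroup f.ker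
  rw [hker] at h1
  have h3 : Nat.card (A ⧸ f.ker) = Nat.card f.range :=
    Nat.card_congr (QuotientAddGroup.quotientKerEquivRange f).toEquiv
  rw [h1, h3, hr]

/-- the points of two-power order from the points of order eight -/
theorem four_of {A : Type} [AddCommGroup A] (h8 : ∀ P : A, 8 • P = 0 → 4 • P = 0) (k : ℕ) :
    ∀ P : A, 2 ^ k • P = 0 → 4 • P = 0 := by
  induction k with
  | zero =>
    intro P h
    rw [pow_zero, one_nsmul] at h
    rw [h, nsmul_zero]
  | succ k ih =>
    intro P h
    apply h8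
    have h1 : 2 ^ k • (2 • P) = 0 := by rw [← mul_nsmul', ← pow_succ]; exact h
    have h2 := ih _ h1
    rw [← mul_nsmul'] at h2
    exact h2

/-- the torsion points have order dividing four -/
theorem tor_four {A : Type} [AddCommGroup A] (h8 : ∀ P : A, 8 • P = 0 → 4 • P = 0)
    (hodd : ∀ (P : A) {N : ℕ}, Odd N → N • P = 0 → P = 0) (P : A) (h : IsOfFinAddOrder P) :
    4 • P = 0 := by
  obtain ⟨N, hN, hP⟩ := isOfFinAddOrder_iff_nsmul_eq_zero.1 h
  obtain ⟨k, d, hd, rfl⟩ := Nat.exists_eq_two_pow_mul_odd hN.ne'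
  refine four_of h8 k P (hodd _ hd ?_)
  rw [← mul_nsmul', mul_comm]
  exact hP

section gen

variable {m : ℤ}

/-- the general result -/
theorem tors_eight (hs : Squarefree m) (a r1 r2 : ℚ) (ha : a * (a + 9 * m) * (a - 16 * m) = 0)
    (ha0 : 0 < a) (hneg : ∀ e : ℚ, e = 0 ∨ e = -9 * m ∨ e = 16 * m → e ≠ a → e ≤ 0)
    (hrel : ∀ x y : ℚ, y ^ 2 = x * (x + 9 * m) * (x - 16 * m) →
      a * (2 * y) ^ 2 = (x ^ 2 + 144 * m ^ 2) ^ 2 → x = r1 ∨ x = r2)
    (h1 : ¬ (IsSquare r1 ∧ IsSquare (r1 + 9 * m) ∧ IsSquare (r1 - 16 * m)))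
    (h2 : ¬ (IsSquare r2 ∧ IsSquare (r2 + 9 * m) ∧ IsSquare (r2 - 16 * m)))
    (y0 : ℚ) (hy0 : y0 ≠ 0) (hP0 : y0 ^ 2 = r1 * (r1 + 9 * m) * (r1 - 16 * m))
    (hP1 : a * (2 * y0) ^ 2 = (r1 ^ 2 + 144 * m ^ 2) ^ 2) :
    Nat.card (AddCommGroup.torsion (EQm m).toAffine.Point) = 8 := by
  have hm := hs.ne_zero
  have hmQ : (m : ℚ) ≠ 0 := by exact_mod_cast hm
  have hR := isR m
  have hpos : ∀ x : ℚ, 0 < x ^ 2 + 144 * (m : ℚ) ^ 2 := fun x => by positivity
  obtain ⟨T1, hT1⟩ : ∃ T1 : (EQm m).toAffine.Point, T1 = .some a 0 (nonsing hm ha) := ⟨_, rfl⟩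
  have hT10 : T1 ≠ 0 := by rw [hT1]; exact Affine.Point.some_ne_zero _
  have hT12 : T1 + T1 = 0 := by
    rw [hT1]
    exact dbl_T hR _
  -- doubles which are killed by two
  have key : ∀ (x y : ℚ) (h : (EQm m).toAffine.Nonsingular x y), y ≠ 0 →
      ((Affine.Point.some x y h + Affine.Point.some x y h : (EQm m).toAffine.Point) +
        (Affine.Point.some x y h + Affine.Point.some x y h)) = 0 →
      (Affine.Point.some x y h + Affine.Point.some x y h : (EQm m).toAffine.Point) = T1 ∧
        (x = r1 ∨ x = r2) := by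
    intro x y h hy h4
    obtain ⟨X, Y, H, e1, e2⟩ := dblQ h hy
    rw [e1] at h4
    have hY : Y = 0 := by
      by_contra hY
      obtain ⟨X', Y', H', e3, -⟩ := dblQ H hY
      rw [e3] at h4
      exact Affine.Point.some_ne_zero _ h4
    subst hY
    have hX := eqnQ H
    have hXX : X = 0 ∨ X = -9 * m ∨ X = 16 * m := by
      have h0 : X * (X + 9 * m) * (X - 16 * m) = 0 := by rw [← hX]; norm_num
      rcases mul_eq_zero.1 h0 with h5 | h5
      · rcases mul_eq_zero.1 h5 with h6 | h6
        · exact Or.inl h6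
        · exact Or.inr (Or.inl (by linarith))
      · exact Or.inr (Or.inr (by linarith))
    have hXa : X = a := by
      by_contra hne
      have h5 := hneg X hXX hne
      have h6 : X * (2 * y) ^ 2 ≤ 0 := mul_nonpos_of_nonpos_of_nonneg h5 (sq_nonneg _)
      rw [e2] at h6
      have := hpos x
      nlinarith [sq_nonneg (x ^ 2 + 144 * (m : ℚ) ^ 2), pow_pos this 2]
    subst hXa
    exact ⟨by rw [e1, hT1], hrel x y (eqnQ h) e2⟩
  -- no points of order eight
  have h8 : ∀ P : (EQm m).toAffine.Point, 8 • P = 0 → 4 • P = 0 := by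
    intro P hP
    by_contra hne
    have e4 : 4 • P = (P + P) + (P + P) := by abel
    have e8 : 8 • P = ((P + P) + (P + P)) + ((P + P) + (P + P)) := by abel
    rw [e4] at hne
    rw [e8] at hP
    rcases P with _ | ⟨x, y, h⟩
    · exact hne (by
        have : (Affine.Point.zero : (EQm m).toAffine.Point) = 0 := rfl
        rw [this, add_zero, add_zero])
    have hy : y ≠ 0 := by
      rintro rfl
      apply hne
      rw [dbl_T hR h, add_zero]
    obtain ⟨X, Y, H, e1, e2⟩ := dblQ h hy
    rw [e1] at hne hP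
    have hY : Y ≠ 0 := by
      rintro rfl
      exact hne (dbl_T hR H)
    have k1 := dbl_sq hR two_ne_zero h hy H e1
    have k2 := dbl_sq hR.rot two_ne_zero h hy H e1
    have k3 := dbl_sq hR.rot.rot two_ne_zero h hy H e1
    have k1' : IsSquare X := by simpa using k1
    have k2' : IsSquare (X + 9 * (m : ℚ)) := by
      have e : X - ((-9 * m : ℤ) : ℚ) = X + 9 * m := by push_cast; ring
      rw [← e]; exact k2
    have k3' : IsSquare (X - 16 * (m : ℚ)) := by
      have e : X - ((16 * m : ℤ) : ℚ) = X - 16 * m := by push_cast; ring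
      rw [← e]; exact k3
    rcases (key X Y H hY hP).2 with rfl | rfl
    · exact h1 ⟨k1', k2', k3'⟩
    · exact h2 ⟨k1', k2', k3'⟩
  have hfin : Finite (AddCommGroup.torsion (EQm m).toAffine.Point) := finite_tors (fg_E hm)
  have hT1t : IsOfFinAddOrder T1 := isOfFinAddOrder_iff_nsmul_eq_zero.2
    ⟨2, two_pos, by rw [two_nsmul]; exact hT12⟩
  refine card_eight ?_ (⟨T1, hT1t⟩ : AddCommGroup.torsion (EQm m).toAffine.Point) ?_ ?_ ?_
  · have e : {x : AddCommGroup.torsion (EQm m).toAffine.Point // x + x = 0} ≃ (T4 hm : Finset _) :=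
      { toFun := fun x => ⟨x.1.1, mem_T4 hm (congrArg Subtype.val x.2)⟩
        invFun := fun x => ⟨⟨x.1, by
          have h1 : IsOfFinAddOrder x.1 := isOfFinAddOrder_iff_nsmul_eq_zero.2
            ⟨2, two_pos, by rw [two_nsmul]; exact T4_two hm _ x.2⟩
          exact h1⟩, Subtype.ext (T4_two hm _ x.2)⟩
        left_inv := fun x => rfl
        right_inv := fun x => rfl }
    rw [Nat.card_congr e, Nat.card_eq_fintype_card, Fintype.card_coe, T4_card]
  · intro h
    exact hT10 (congrArg Subtype.val h)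
  · rintro ⟨x, hx⟩
    have h4 := tor_four h8 (fun P N hN hP => no_odd hs P hN hP) x hx
    have e4 : 4 • x = (x + x) + (x + x) := by abel
    rw [e4] at h4
    by_cases h0 : x + x = 0
    · left
      exact Subtype.ext h0
    · right
      apply Subtype.ext
      rcases x with _ | ⟨X, Y, H⟩
      · exact absurd (add_zero _) h0
      have hY : Y ≠ 0 := by
        rintro rfl
        exact h0 (dbl_T hR H)
      exact (key X Y H hY h4).1
  · -- a point of order four
    have hns : (EQm m).toAffine.Nonsingular r1 y0 := by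
      rw [Affine.nonsingular_iff, Affine.equation_iff]
      simp only [Em, map_a₁, map_a₂, map_a₃, map_a₄, map_a₆, eq_intCast]
      push_cast
      refine ⟨by linear_combination hP0, Or.inr ?_⟩
      intro h
      apply hy0
      linarith
    obtain ⟨X, Y, H, e1, e2⟩ := dblQ hns hy0
    have hXa : X = a := by
      have h5 : (2 * y0) ^ 2 ≠ 0 := pow_ne_zero 2 (mul_ne_zero two_ne_zero hy0)
      exact mul_right_cancel₀ h5 (by rw [e2, hP1])
    subst hXa
    have hY : Y = 0 := by
      have h6 := eqnQ H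
      rw [ha] at h6
      exact pow_eq_zero_iff two_ne_zero |>.1 h6
    subst hY
    have h4 : (Affine.Point.some r1 y0 hns + Affine.Point.some r1 y0 hns :
        (EQm m).toAffine.Point) = T1 := by rw [e1, hT1]
    refine ⟨⟨Affine.Point.some r1 y0 hns, isOfFinAddOrder_iff_nsmul_eq_zero.2 ⟨4, by norm_num, ?_⟩⟩,
      Subtype.ext h4⟩
    have e4 : 4 • (Affine.Point.some r1 y0 hns : (EQm m).toAffine.Point) =
        (Affine.Point.some r1 y0 hns + Affine.Point.some r1 y0 hns) +
          (Affine.Point.some r1 y0 hns + Affine.Point.some r1 y0 hns) := by abel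
    rw [e4, h4, hT12]

end gen

theorem nsq_cast {a c : ℤ} (h0 : 0 ≤ a) (h1 : a * a < c) (h2 : c < (a + 1) * (a + 1)) :
    ¬ IsSquare (c : ℚ) := by
  rw [Rat.isSquare_intCast_iff]
  exact nsq h0 h1 h2

/-- **the torsion subgroup of `X_0(15)` has order eight** -/
theorem tors_one : Nat.card (AddCommGroup.torsion (EQm 1).toAffine.Point) = 8 := by
  refine tors_eight (m := 1) squarefree_one 16 36 (-4) (by norm_num) (by norm_num) ?_ ?_ ?_ ?_ 180
    (by norm_num) (by norm_num) (by norm_num)
  · intro e he hne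
    push_cast at he
    rcases he with rfl | rfl | rfl
    · exact le_rfl
    · norm_num
    · exact absurd (by norm_num) hne
  · intro x y h3 h4
    have h5 : (x ^ 2 - 32 * x - 144) ^ 2 = 0 := by
      push_cast at h3 h4
      linear_combination 64 * h3 - h4
    have h6 := pow_eq_zero_iff two_ne_zero |>.1 h5
    have h7 : (x - 36) * (x - -4) = 0 := by linear_combination h6
    rcases mul_eq_zero.1 h7 with h8 | h8
    · exact Or.inl (by linarith)
    · exact Or.inr (by linarith)
  · rintro ⟨-, h, -⟩
    have h1 : IsSquare (((45 : ℤ)) : ℚ) := by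
      convert h using 1
      norm_num
    exact nsq_cast (a := 6) (by norm_num) (by norm_num) (by norm_num) h1
  · rintro ⟨h, -, -⟩
    have := h.nonneg
    norm_num at this

/-- **the torsion subgroup of the twist by `-1` has order eight** -/
theorem tors_neg_one : Nat.card (AddCommGroup.torsion (EQm (-1)).toAffine.Point) = 8 := by
  refine tors_eight (m := -1) (by
      rw [← Int.squarefree_natAbs]
      norm_num) 9 24 (-6) (by norm_num) (by norm_num) ?_ ?_ ?_ ?_ 120
    (by norm_num) (by norm_num) (by norm_num)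
  · intro e he hne
    push_cast at he
    rcases he with rfl | rfl | rfl
    · exact le_rfl
    · exact absurd (by norm_num) hne
    · norm_num
  · intro x y h3 h4
    have h5 : (x ^ 2 - 18 * x - 144) ^ 2 = 0 := by
      push_cast at h3 h4
      linear_combination 36 * h3 - h4
    have h6 := pow_eq_zero_iff two_ne_zero |>.1 h5
    have h7 : (x - 24) * (x - -6) = 0 := by linear_combination h6
    rcases mul_eq_zero.1 h7 with h8 | h8
    · exact Or.inl (by linarith)
    · exact Or.inr (by linarith)
  · rintro ⟨h, -, -⟩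
    have h1 : IsSquare (((24 : ℤ)) : ℚ) := by exact_mod_cast h
    exact nsq_cast (a := 4) (by norm_num) (by norm_num) (by norm_num) h1
  · rintro ⟨h, -, -⟩
    have := h.nonneg
    norm_num at this

/-- **the torsion subgroup of the minimal equation of `X_0(15)`** -/
theorem tors_EE_one : Nat.card (AddCommGroup.torsion ((Pool.Agent.N218.T15.EE 1).map
      (Int.castRingHom ℚ)).toAffine.Point) = 8 := by
  have h4 : (1 : ℤ) % 4 = 1 := by norm_num
  have e : Pool.Agent.N218.T15.EE 1 = WN 1 := if_pos h4
  rw [e, ← tors_one]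
  exact Pool.Agent.N875.X15.tors_congr
    ((Pool.Agent.N875.X15.vr h4 ℚ).equiv (Pool.Agent.N875.X15.WN_Δ_ne h4 ℚ))

theorem tors_EE_neg_one : Nat.card (AddCommGroup.torsion ((Pool.Agent.N218.T15.EE (-1)).map
      (Int.castRingHom ℚ)).toAffine.Point) = 8 := by
  have e : Pool.Agent.N218.T15.EE (-1) = Em (-1) := if_neg (by norm_num)
  rw [e]
  exact tors_neg_one

end Pool.Agent.N871.S15
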