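import Pool.Agent.N871.S15.Wq
import Pool.Agent.N875.S15.Ap
import Pool.Agent.N875.S15.Tors
import Pool.Agent.N218.T15.Tam
import Pool.Agent.N975.CHB
import Pool.Agent.N974.PG.GnE
import Pool.Agent.N971.EX.Per17

/-!
# Level `15`: the central values vanish for the root number `-1`, all quadratic twists
-/

set_option autoImplicit false
set_option linter.style.haveILetI false

open Finset UpperHalfPlane MatrixGroups CongruenceSubgroup ZMod

namespace Pool.Agent.N871.S15

open Pool.Agent.N974.Gen (II)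
open Pool.Agent.N974.MF (f15 E15)
open Pool.Agent.N974.GN (eigen15)
open Pool.Agent.N969.P15 (un)
open Pool.Agent.W97.MT (ap)
open Pool.Agent.Y700 (IsL Omega)
open Pool.Agent.N218.T15 (EE)
open Pool.Agent.N875.X15 (WN Em)

/-- the quadratic character of the field of the twist -/
structure Chr (m : ℤ) (q : ℕ) (χ : ℤ → ℤ) : Prop where
  lt : 1 < q
  mul : ∀ a b, χ (a * b) = χ a * χ b
  per : ∀ a b, (q : ℤ) ∣ a - b → χ a = χ b
  pm : ∀ u : ℕ, Nat.Coprime u q → χ u = 1 ∨ χ u = -1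
  zero : ∀ u : ℕ, ¬ Nat.Coprime u q → χ u = 0
  one : χ 1 = 1
  neg : χ (-1) = if 0 < m then 1 else -1
  prime : ∀ p : ℕ, p.Prime → p ≠ 2 → χ p = jacobiSym m p
  dvd : ∀ p : ℕ, p.Prime → p ≠ 2 → (p ∣ q ↔ (p : ℤ) ∣ m)
  dir : ∃ (_ : NeZero q) (ψ : DirichletCharacter ℂ q), ψ.IsPrimitive ∧ ψ⁻¹ = ψ ∧
    ∀ u : ℕ, ψ (u : ZMod q) = (χ u : ℂ)
  ap : ∀ p : ℕ, p.Prime → ap (EE m) p = ap E15 p * χ p
  disc : ∀ p : ℕ, p.Prime → ((p : ℤ) ∣ (EE m).Δ ↔ p ∣ 15 ∨ p ∣ q)

/-- the part of the level prime to the discriminant -/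
def QQ (m : ℤ) : ℕ := (if (3 : ℤ) ∣ m then 1 else 3) * (if (5 : ℤ) ∣ m then 1 else 5)

theorem QQ_cases (m : ℤ) : QQ m = 1 ∨ QQ m = 3 ∨ QQ m = 5 ∨ QQ m = 15 := by
  unfold QQ
  split_ifs <;> simp

/-- the root number is `-1` -/
def Rm (m : ℤ) : Prop := (if 0 < m then (1 : ℤ) else -1) *
  ((if (3 : ℤ) ∣ m then 1 else jacobiSym m 3) * (if (5 : ℤ) ∣ m then -1 else jacobiSym m 5)) = -1

namespace Chr

variable {m : ℤ} {q : ℕ} {χ : ℤ → ℤ} (H : Chr m q χ)
include H

theorem three : χ 3 = jacobiSym m 3 := by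
  have := H.prime 3 Nat.prime_three (by norm_num)
  exact_mod_cast this

theorem five : χ 5 = jacobiSym m 5 := by
  have := H.prime 5 (by norm_num) (by norm_num)
  exact_mod_cast this

theorem cop : Nat.Coprime (QQ m) q := by
  unfold QQ
  have h3 := H.dvd 3 Nat.prime_three (by norm_num)
  have h5 := H.dvd 5 (by norm_num) (by norm_num)
  push_cast at h3 h5
  refine Nat.Coprime.mul_left ?_ ?_
  · split_ifs with h
    · exact Nat.coprime_one_left q
    · exact (Nat.Prime.coprime_iff_not_dvd Nat.prime_three).2 fun h' => h (h3.1 h')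
  · split_ifs with h
    · exact Nat.coprime_one_left q
    · exact (Nat.Prime.coprime_iff_not_dvd (by norm_num)).2 fun h' => h (h5.1 h')

theorem lev : 15 ∣ QQ m * q := by
  unfold QQ
  have h3 := H.dvd 3 Nat.prime_three (by norm_num)
  have h5 := H.dvd 5 (by norm_num) (by norm_num)
  push_cast at h3 h5
  have a3 : 3 ∣ (if (3 : ℤ) ∣ m then 1 else 3) * (if (5 : ℤ) ∣ m then 1 else 5) * q := by
    split_ifs with h h'
    · exact dvd_mul_of_dvd_right (h3.2 h) _
    · exact dvd_mul_of_dvd_right (h3.2 h) _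
    · exact ⟨q, by ring⟩
    · exact ⟨5 * q, by ring⟩
  have a5 : 5 ∣ (if (3 : ℤ) ∣ m then 1 else 3) * (if (5 : ℤ) ∣ m then 1 else 5) * q := by
    split_ifs with h h' h'
    · exact dvd_mul_of_dvd_right (h5.2 h') _
    · exact ⟨q, by ring⟩
    · exact dvd_mul_of_dvd_right (h5.2 h') _
    · exact ⟨3 * q, by ring⟩
  exact Nat.Coprime.mul_dvd_of_dvd_of_dvd (by norm_num) a3 a5

theorem eps_eq (h : Rm m) : eps (QQ m) * (χ (QQ m) * χ (-1)) = 1 := by
  unfold Rm at h
  rw [H.neg]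
  unfold QQ
  have e15 : χ 15 = jacobiSym m 3 * jacobiSym m 5 := by
    rw [show (15 : ℤ) = 3 * 5 by norm_num, H.mul, H.three, H.five]
  have v1 : eps 1 = 1 := by decide
  have v3 : eps 3 = 1 := by decide
  have v5 : eps 5 = -1 := by decide
  have v15 : eps 15 = -1 := by decide
  by_cases h3 : (3 : ℤ) ∣ m <;> by_cases h5 : (5 : ℤ) ∣ m <;> by_cases h0 : 0 < m
  all_goals
    simp only [h3, h5, h0, if_true, if_false, mul_one, one_mul] at h ⊢
    push_cast
    first
    | (norm_num at h; done)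
    | (norm_num [v1, v3, v5, v15, H.one, H.three, H.five, e15]; done)
    | (norm_num [v1, v3, v5, v15, H.one, H.three, H.five, e15]; linarith)

/-- **the central value vanishes** -/
theorem van (h : Rm m) : ∃ f : ℂ → ℂ, IsL (EE m) f ∧ f 1 = 0 := by
  obtain ⟨_, ψ, h1, h2, h3⟩ := H.dir
  have hq := H.lt
  refine Pool.Agent.N975.S21V.van_L eigen15 (EE m) ψ h1 h2 (fun u => χ u) h3 ?_ H.ap ?_ ?_
  · intro p hp
    by_cases hpq : Nat.Coprime p q
    · exact Or.inr (H.pm p hpq)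
    · exact Or.inl (H.zero p hpq)
  · intro p hp
    rw [H.disc p hp]
    refine or_congr Iff.rfl ?_
    constructor
    · intro h4
      exact H.zero p fun h5 => (Nat.Prime.coprime_iff_not_dvd hp).1 h5 h4
    · intro h4
      by_contra h5
      rcases H.pm p ((Nat.Prime.coprime_iff_not_dvd hp).2 h5) with h6 | h6 <;>
        rw [h6] at h4 <;> norm_num at h4
  · exact Pool.Agent.N975.S21V.van_sum (s := II f15) H.cop H.mul H.per H.pm H.one
      (fun u x y hu => rel (QQ_cases m) (by omega) H.lev hu) (H.eps_eq h)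

end Chr

end Pool.Agent.N871.S15
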