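import Pool.Agent.N974.GN.DualE
import Pool.Agent.N974.MF.Symb
import Pool.Agent.N975.S21V.Mob

/-!
# The Atkin-Lehner involutions and the integral symbol of level `15`
-/

set_option autoImplicit false

open UpperHalfPlane MatrixGroups CongruenceSubgroup Filter Topology

namespace Pool.Agent.N871.S15

open Pool.Agent.N974.Gen (II)
open Pool.Agent.N974.MF (f15)
open Pool.Agent.N975.S21V (Mb mb_gamma mb_comp mb_smul rel_of)
open Pool.Agent.W97.MT (const_of_deriv)

theorem gff {z : ℂ} (hz : 0 < z.im) : Pool.Agent.N974.Gen.ff f15 z = Pool.Agent.N974.MF.ff z :=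
  Pool.Agent.N974.MF.form15_of hz

/-- the two primitives differ by a constant -/
theorem F_eq : ∃ c : ℂ, ∀ z : ℂ, 0 < z.im →
    Pool.Agent.N974.Gen.F f15 z = Pool.Agent.N974.MF.F z + c := by
  obtain ⟨c, hc⟩ := const_of_deriv
    (g := fun z => Pool.Agent.N974.Gen.F f15 z - Pool.Agent.N974.MF.F z) fun z hz => by
      have h := (Pool.Agent.N974.Gen.F_deriv f15 hz).sub (Pool.Agent.N974.MF.F_deriv hz)
      refine h.congr_deriv ?_
      rw [gff hz, sub_self]
  exact ⟨c, fun z hz => by linear_combination hc z hz⟩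

/-- the relation between the primitives -/
theorem mb_tr {A B C D : ℤ} {ε p : ℂ} (hd : 0 < A * D - B * C)
    (h : ∀ z : ℂ, 0 < z.im → Pool.Agent.N974.MF.F (((A : ℂ) * z + B) / ((C : ℂ) * z + D)) =
      ε * Pool.Agent.N974.MF.F z + p) : Mb f15 A B C D ε := by
  obtain ⟨c, hc⟩ := F_eq
  refine ⟨c + p - ε * c, fun z hz => ?_⟩
  rw [hc _ (Pool.Agent.N975.S21V.pos_of hd hz), hc z hz, h z hz]
  ring

theorem mb_gamma15 {a b c d : ℤ} (h : a * d - b * (15 * c) = 1) : Mb f15 a b (15 * c) d 1 := by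
  have := mb_gamma (f := f15) (a := a) (b := b) (c := c) (d := d) (by exact_mod_cast h)
  exact_mod_cast this

open Pool.Agent.N974.MF in
theorem eps15 : ∃ C : ℂ, ∀ z : ℂ, 0 < z.im →
    Pool.Agent.N974.MF.F (m15 z) = -1 * Pool.Agent.N974.MF.F z + C := by
  obtain ⟨L, Op, Om, hOp, hOm, g2, g3, hL⟩ := Pool.Agent.N974.P15.hlat
  obtain ⟨ε, C, hε, -, hF⟩ := isCusp15.map.const
  have hF' : ∀ z : ℂ, 0 < z.im → Pool.Agent.N974.MF.F ((((0 : ℝ) : ℂ) * z + ((-1 : ℝ) : ℂ)) /
      (((15 : ℝ) : ℂ) * z + ((0 : ℝ) : ℂ))) = ε * Pool.Agent.N974.MF.F z + C := by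
    intro z hz
    have := hF z hz
    unfold m15 at this
    push_cast
    rw [zero_mul, zero_add, add_zero]
    exact this
  have hN : (0 : ℝ) < 0 * 0 - (-1) * 15 := by norm_num
  have h0 : Pool.Agent.N974.MF.II 0 = C := mob_II_inf hN hF' 0 (by norm_num) (by norm_num)
  have h1 := mob_II_pole hN hF' 0 (by norm_num) (by norm_num)
  have h2 : ε = -1 := by
    rcases hε with rfl | rfl
    · exfalso
      have h3 := (integrals L g2 g3).2.1 0 (by simp) (by simp)
      apply h3.1
      have : Pool.Agent.N974.MF.II 0 = 0 := by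
        rw [← h0] at h1
        have : (2 : ℂ) * Pool.Agent.N974.MF.II 0 = 0 := by linear_combination h1
        simpa using this
      rw [this]
      exact zero_mem _
    · rfl
  rw [h2] at hF
  exact ⟨C, hF⟩

open Pool.Agent.N974.MF in
theorem eps5 : ∃ C : ℂ, ∀ z : ℂ, 0 < z.im →
    Pool.Agent.N974.MF.F (m5 z) = -1 * Pool.Agent.N974.MF.F z + C := by
  obtain ⟨L, Op, Om, hOp, hOm, g2, g3, hL⟩ := Pool.Agent.N974.P15.hlat
  obtain ⟨ε, C, hε, -, hF⟩ := isCusp5.map.const
  have hF' : ∀ z : ℂ, 0 < z.im → Pool.Agent.N974.MF.F ((((5 : ℝ) : ℂ) * z + ((-2 : ℝ) : ℂ)) /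
      (((15 : ℝ) : ℂ) * z + ((-5 : ℝ) : ℂ))) = ε * Pool.Agent.N974.MF.F z + C := by
    intro z hz
    have := hF z hz
    unfold m5 at this
    push_cast
    exact this
  have hN : (0 : ℝ) < 5 * (-5) - (-2) * 15 := by norm_num
  have h0 : Pool.Agent.N974.MF.II (1 / 3) = C :=
    mob_II_inf hN hF' (1 / 3) (by norm_num) (by norm_num)
  have h1 := mob_II_pole hN hF' (1 / 3) (by norm_num) (by norm_num)
  have h2 : ε = -1 := by
    rcases hε with rfl | rfl
    · exfalso
      have h3 := (integrals L g2 g3).2.2.1 (1 / 3) (by norm_num) (by norm_num)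
      apply h3.1
      have : Pool.Agent.N974.MF.II (1 / 3) = 0 := by
        rw [← h0] at h1
        have : (2 : ℂ) * Pool.Agent.N974.MF.II (1 / 3) = 0 := by linear_combination h1
        simpa using this
      rw [this]
      exact zero_mem _
    · rfl
  rw [h2] at hF
  exact ⟨C, hF⟩

theorem mb15 : Mb f15 0 (-1) 15 0 (-1) := by
  obtain ⟨C, hC⟩ := eps15
  refine mb_tr (p := C) (by norm_num) fun z hz => ?_
  rw [← hC z hz]
  unfold Pool.Agent.N974.MF.m15
  push_cast
  congr 1
  rw [zero_mul, zero_add, add_zero]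

theorem mb5 : Mb f15 5 (-2) 15 (-5) (-1) := by
  obtain ⟨C, hC⟩ := eps5
  refine mb_tr (p := C) (by norm_num) fun z hz => ?_
  rw [← hC z hz]
  unfold Pool.Agent.N974.MF.m5
  push_cast
  rfl

theorem mb3 : Mb f15 (-3) 1 15 (-6) 1 := by
  have h := mb_comp mb15 mb5 (by norm_num)
  norm_num at h
  exact mb_smul (k := 5) (by norm_num) (by norm_num; exact h)

/-- the eigenvalues of the form -/
def eps (Q : ℕ) : ℤ := if Q = 1 ∨ Q = 3 then 1 else -1

/-- **the involutions and the integral symbol** -/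
theorem rel {Q n : ℕ} (hQ : Q = 1 ∨ Q = 3 ∨ Q = 5 ∨ Q = 15) (hn : 0 < n) (hN : 15 ∣ Q * n)
    {u x y : ℤ} (h : Q * x * u + y * n = 1) :
    II f15 (-(x : ℚ) / n) = -(eps Q : ℂ) * II f15 ((u : ℚ) / n) := by
  have key : Mb f15 (Q * x) y (-(Q * n)) (Q * u) (eps Q : ℂ) := by
    obtain ⟨k, hk⟩ := hN
    have hkZ : (Q : ℤ) * n = 15 * k := by exact_mod_cast hk
    rcases hQ with rfl | rfl | rfl | rfl
    · -- `Q = 1`
      have h1 := mb_gamma15 (a := x) (b := y) (c := -k) (d := u) (by
        push_cast at h hkZ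
        linear_combination h - y * hkZ)
      have e : -(((1 : ℕ) : ℤ) * n) = 15 * -(k : ℤ) := by rw [hkZ]; ring
      rw [e]
      simpa [eps] using h1
    · -- `Q = 3`
      have hn5 : (n : ℤ) = 5 * k := by
        push_cast at hkZ
        omega
      have h1 := mb_gamma15 (a := -6 * x - 5 * y) (b := -x - y) (c := 2 * k - u)
        (d := 5 * k - 3 * u) (by
          push_cast at h
          rw [hn5] at h
          linear_combination h)
      have h2 := mb_comp h1 mb3 (by norm_num)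
      have e1 : (-6 * x - 5 * y) * -3 + (-x - y) * 15 = ((3 : ℕ) : ℤ) * x := by
        push_cast; ring
      have e2 : (-6 * x - 5 * y) * 1 + (-x - y) * -6 = y := by ring
      have e3 : 15 * (2 * (k : ℤ) - u) * -3 + (5 * k - 3 * u) * 15 = -(((3 : ℕ) : ℤ) * n) := by
        rw [hn5]; push_cast; ring
      have e4 : 15 * (2 * (k : ℤ) - u) * 1 + (5 * k - 3 * u) * -6 = ((3 : ℕ) : ℤ) * u := by
        push_cast; ring
      rw [e1, e2, e3, e4] at h2
      simpa [eps] using h2
    · -- `Q = 5`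
      have hn3 : (n : ℤ) = 3 * k := by
        push_cast at hkZ
        omega
      have h1 := mb_gamma15 (a := -5 * x - 3 * y) (b := 2 * x + y) (c := k - u)
        (d := 5 * u - 6 * k) (by
          push_cast at h
          rw [hn3] at h
          linear_combination h)
      have h2 := mb_comp h1 mb5 (by norm_num)
      have e1 : (-5 * x - 3 * y) * 5 + (2 * x + y) * 15 = ((5 : ℕ) : ℤ) * x := by
        push_cast; ring
      have e2 : (-5 * x - 3 * y) * -2 + (2 * x + y) * -5 = y := by ring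
      have e3 : 15 * ((k : ℤ) - u) * 5 + (5 * u - 6 * k) * 15 = -(((5 : ℕ) : ℤ) * n) := by
        rw [hn3]; push_cast; ring
      have e4 : 15 * ((k : ℤ) - u) * -2 + (5 * u - 6 * k) * -5 = ((5 : ℕ) : ℤ) * u := by
        push_cast; ring
      rw [e1, e2, e3, e4] at h2
      simpa [eps] using h2
    · -- `Q = 15`
      have h1 := mb_gamma15 (a := -y) (b := x) (c := -u) (d := -n) (by
        push_cast at h
        linear_combination h)
      have h2 := mb_comp h1 mb15 (by norm_num)
      have e1 : -y * 0 + x * 15 = ((15 : ℕ) : ℤ) * x := by push_cast; ring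
      have e2 : -y * -1 + x * 0 = y := by ring
      have e3 : 15 * -u * 0 + -(n : ℤ) * 15 = -(((15 : ℕ) : ℤ) * n) := by push_cast; ring
      have e4 : 15 * -u * -1 + -(n : ℤ) * 0 = ((15 : ℕ) : ℤ) * u := by push_cast; ring
      rw [e1, e2, e3, e4] at h2
      simpa [eps] using h2
  exact rel_of (by rcases hQ with rfl | rfl | rfl | rfl <;> norm_num) hn h key

end Pool.Agent.N871.S15
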